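import Pool.Agent.N998.CT.Key

set_option autoImplicit false

/-! The asymptotic theorems. -/

namespace Pool.Agent.N998.CT

open Filter Pool.Agent.R920.CH Pool.Agent.R852.BC Pool.Agent.R852.LK

/-- the case of integral roots -/
lemma integral_case (N : ℕ) (hN : 3 ≤ N) (c₁ d a b : ℤ) (hc : Cond N c₁ d) (hab : c₁ = a + b)
    (hd : d = a * b) (hba : b ≤ a) :
    (N : ℤ) - 1 ≤ b ∧ (a - 1) ^ (N - 2) ≤ (1 + (a - b)) * (b - 1) ^ (N - 2) := by
  have hD : 4 * d ≤ c₁ ^ 2 := by rw [hab, hd]; nlinarith [sq_nonneg (a - b)]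
  obtain ⟨a₀, b₀, h1, h2, h3, h4, h5⟩ := hc.unst hD
  obtain ⟨n, rfl⟩ : ∃ n, N = n + 3 := ⟨N - 3, by omega⟩
  have hz : 0 < d - a₀ * b₀ := by linarith
  have e1 : (a₀ - a) * (a₀ - b) = d - a₀ * b₀ := by
    have : b₀ = a + b - a₀ := by linarith
    rw [this, hd]; ring
  have h6 : 0 ≤ a₀ - b := by linarith
  have h7 : 0 < a₀ - a := by
    by_contra hcon
    push Not at hcon
    nlinarith
  obtain ⟨g1, g2⟩ := integral (a - 1) (b - 1) (c₁ - 2) (d - c₁ + 1) (a₀ - 1)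
    (by rw [hab]; ring) (by rw [hab, hd]; ring) (by linarith) (by linarith) n
    (fun j hj => h5 j (by omega))
  have e2 : n + 3 - 2 = n + 1 := by omega
  rw [e2]
  constructor
  · push_cast; linarith
  · have e3 : a - 1 - (b - 1) = a - b := by ring
    rw [e3] at g2
    exact g2

/-- **The degree.** -/
theorem asy (ε : ℝ) (hε : 0 < ε) : ∀ᶠ N : ℕ in atTop, ∀ c₁ d : ℤ, Cond N c₁ d →
    (d : ℝ) < (N : ℝ) ^ (4 * Real.exp (1 / 2) + 2 - ε) →
    ∃ a b : ℤ, c₁ = a + b ∧ d = a * b ∧ (N : ℤ) - 1 ≤ b ∧ b ≤ a ∧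
      (a - 1) ^ (N - 2) ≤ (1 + (a - b)) * (b - 1) ^ (N - 2) := by
  filter_upwards [rank_two 7 (ε / 2) (by positivity), disc_small 9 (ε / 2) (by norm_num)
    (by positivity), eventually_ge_atTop 3] with N hN hsm hN3 c₁ d hc hd
  have hN1 : (1 : ℝ) ≤ N := by exact_mod_cast (by omega : 1 ≤ N)
  have hN0 : (0 : ℝ) < N := by linarith
  have hexp := exp_half_bounds.2
  have hd9 : (d : ℝ) ≤ (N : ℝ) ^ (9 : ℝ) :=
    hd.le.trans (Real.rpow_le_rpow_of_exponent_le hN1 (by linarith))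
  obtain ⟨h1, h2⟩ := hsm c₁ d hc hd9
  have h3 : |(c₁ : ℝ) ^ 2 - 4 * d| ≤ (N : ℝ) ^ (4 * Real.exp (1 / 2) - ε / 2) := by
    have h4 : |(c₁ : ℝ) ^ 2 - 4 * d| * (N : ℝ) ^ (2 - ε / 2) ≤
        (N : ℝ) ^ (4 * Real.exp (1 / 2) - ε / 2) * (N : ℝ) ^ (2 - ε / 2) := by
      rw [← Real.rpow_add hN0]
      have e : 4 * Real.exp (1 / 2) - ε / 2 + (2 - ε / 2) = 4 * Real.exp (1 / 2) + 2 - ε := by ring
      rw [e]
      exact h1.trans hd.le
    exact le_of_mul_le_mul_right h4 (Real.rpow_pos_of_pos hN0 _)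
  have h4 : ((|c₁ ^ 2 - 4 * d| : ℤ) : ℝ) ≤ (N : ℝ) ^ (4 * Real.exp (1 / 2) - ε / 2) := by
    push_cast
    exact h3
  obtain ⟨a, b, hab, hab2⟩ := hN c₁ d (c₁ ^ 2 - 4 * d) 1 hc.rr (by ring)
    (h4.trans (Real.rpow_le_rpow_of_exponent_le hN1 (by linarith))) h4
  rcases le_total b a with hba | hba
  · obtain ⟨g1, g2⟩ := integral_case N hN3 c₁ d a b hc hab hab2 hba
    exact ⟨a, b, hab, hab2, g1, hba, g2⟩
  · obtain ⟨g1, g2⟩ := integral_case N hN3 c₁ d b a hc (by rw [hab]; ring)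
      (by rw [hab2]; ring) hba
    exact ⟨b, a, by rw [hab]; ring, by rw [hab2]; ring, g1, hba, g2⟩

lemma split_of_square (c₁ c₂ : ℤ) (h : IsSquare (c₁ ^ 2 - 4 * c₂)) :
    ∃ a b : ℤ, c₁ = a + b ∧ c₂ = a * b := by
  obtain ⟨s, hs⟩ := h
  have h1 : Even (c₁ ^ 2 - s * s) := ⟨2 * c₂, by linarith⟩
  have h2 : Even (c₁ - s) := by
    rw [Int.even_sub] at h1 ⊢
    rw [Int.even_pow' two_ne_zero, Int.even_mul] at h1
    tauto
  obtain ⟨m, hm⟩ := h2
  refine ⟨c₁ - m, m, by ring, ?_⟩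
  have h3 : s = c₁ - 2 * m := by linarith
  rw [h3] at hs
  have h4 : 4 * c₂ = 4 * ((c₁ - m) * m) := by linear_combination -hs
  linarith

/-- the exceptional degrees with discriminants which are not squares -/
lemma count_nonsq (A : ℝ) (hA : 1 ≤ A) : ∀ᶠ N : ℕ in atTop, ∀ Y : ℝ, 1 ≤ Y → Y ≤ (N : ℝ) ^ A →
    ∀ (S : Finset ℤ) (κ : ℤ → ℤ), (∀ d ∈ S, (d : ℝ) ≤ Y ∧ Cond N (κ d) d ∧
      ¬ IsSquare ((κ d) ^ 2 - 4 * d)) → (S.card : ℝ) ≤ Y / N := by
  classical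
  filter_upwards [disc_small A 1 (by linarith) one_pos, count A 1 one_pos, ev_ge 3 1 one_pos,
    eventually_ge_atTop 4] with N hsm hcount h3 hN4 Y hY1 hYA S κ hS
  have hN4r : (4 : ℝ) ≤ N := by exact_mod_cast hN4
  have hN0 : (0 : ℝ) < N := by linarith
  have hY0 : (0 : ℝ) < Y := by linarith
  have hmain : ∀ d ∈ S, |((κ d : ℤ) : ℝ) ^ 2 - 4 * d| ≤ Y / N ∧ 0 < κ d := by
    intro d hd
    obtain ⟨g1, g2, g3⟩ := hS d hd
    obtain ⟨g4, g5⟩ := hsm (κ d) d g2 (g1.trans hYA)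
    refine ⟨?_, g5⟩
    rw [le_div_iff₀ hN0]
    have e : (2 : ℝ) - 1 = 1 := by norm_num
    rw [e, Real.rpow_one] at g4
    linarith
  set S' : Finset ℤ := S.image fun d => (κ d) ^ 2 - 4 * d with hS'
  have hYN : Y / N ≤ (N : ℝ) ^ A := by
    refine le_trans (div_le_self hY0.le (by linarith)) hYA
  have hc' := hcount (Y / N) (by positivity) hYN S' (by
    intro D hD
    obtain ⟨d, hd, rfl⟩ := Finset.mem_image.mp hD
    obtain ⟨g1, g2, g3⟩ := hS d hd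
    refine ⟨?_, g3, κ d, d, g2.rr, rfl⟩
    push_cast
    exact (hmain d hd).1)
  have hcard : S.card ≤ (Finset.Icc (1 : ℤ) ⌊3 * √Y⌋₊ ×ˢ S').card := by
    apply Finset.card_le_card_of_injOn (fun d => (κ d, (κ d) ^ 2 - 4 * d))
    · intro d hd
      rw [Finset.mem_coe] at hd
      rw [Finset.mem_coe, Finset.mem_product]
      refine ⟨?_, Finset.mem_image.mpr ⟨d, hd, rfl⟩⟩
      rw [Finset.mem_Icc]
      obtain ⟨g1, g2⟩ := hmain d hd
      obtain ⟨g3, g4, g5⟩ := hS d hd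
      refine ⟨g2, ?_⟩
      have hk0 : (0 : ℝ) < κ d := by exact_mod_cast g2
      have h5 : ((κ d : ℤ) : ℝ) ^ 2 ≤ 5 * Y := by
        have h6 := (abs_le.mp g1).2
        have h7 : Y / N ≤ Y := div_le_self hY0.le (by linarith)
        linarith
      have h6 : ((κ d : ℤ) : ℝ) ≤ 3 * √Y := by
        have h7 : (3 * √Y) ^ 2 = 9 * Y := by rw [mul_pow, Real.sq_sqrt hY0.le]; norm_num
        apply le_of_sq_le_sq _ (by positivity)
        rw [h7]; linarith
      have h7 : (κ d).toNat ≤ ⌊3 * √Y⌋₊ := by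
        apply Nat.le_floor
        have e : (((κ d).toNat : ℕ) : ℝ) = ((κ d : ℤ) : ℝ) := by
          have := Int.toNat_of_nonneg g2.le
          exact_mod_cast this
        rw [e]; exact h6
      show κ d ≤ (⌊3 * √Y⌋₊ : ℤ)
      omega
    · intro d hd d' hd' h
      simp only [Prod.mk.injEq] at h
      obtain ⟨g1, g2⟩ := h
      rw [g1] at g2
      linarith
  rw [Finset.card_product, Int.card_Icc] at hcard
  have h1 : (((⌊3 * √Y⌋₊ : ℤ) + 1 - 1).toNat : ℝ) ≤ 3 * √Y := by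
    have e : ((⌊3 * √Y⌋₊ : ℤ) + 1 - 1).toNat = ⌊3 * √Y⌋₊ := by omega
    rw [e]
    exact Nat.floor_le (by positivity)
  have h2 : (S.card : ℝ) ≤ (3 * √Y) * (S'.card : ℝ) := by
    calc (S.card : ℝ) ≤ ((((⌊3 * √Y⌋₊ : ℤ) + 1 - 1).toNat * S'.card : ℕ) : ℝ) := by
          exact_mod_cast hcard
      _ = (((⌊3 * √Y⌋₊ : ℤ) + 1 - 1).toNat : ℝ) * (S'.card : ℝ) := by push_cast; ring
      _ ≤ _ := mul_le_mul_of_nonneg_right h1 (Nat.cast_nonneg _)
  have hexp := exp_half_bounds.1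
  have h4 : (N : ℝ) ^ (2 : ℝ) ≤ (N : ℝ) ^ (2 * Real.exp (1 / 2) - 1) :=
    Real.rpow_le_rpow_of_exponent_le (by linarith) (by linarith)
  have h5 : √(Y / N) ≤ √Y := Real.sqrt_le_sqrt (div_le_self hY0.le (by linarith))
  have h6 : √Y * √Y = Y := Real.mul_self_sqrt hY0.le
  have hNsq : (0 : ℝ) < (N : ℝ) ^ (2 : ℝ) := Real.rpow_pos_of_pos hN0 _
  calc (S.card : ℝ) ≤ (3 * √Y) * (S'.card : ℝ) := h2
    _ ≤ (3 * √Y) * (√(Y / N) / (N : ℝ) ^ (2 * Real.exp (1 / 2) - 1)) := by gcongr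
    _ ≤ (3 * √Y) * (√Y / (N : ℝ) ^ (2 : ℝ)) := by gcongr
    _ = 3 * Y / (N : ℝ) ^ (2 : ℝ) := by
        have e : (3 * √Y) * (√Y / (N : ℝ) ^ (2 : ℝ)) = 3 * (√Y * √Y) / (N : ℝ) ^ (2 : ℝ) := by
          ring
        rw [e, h6]
    _ ≤ Y / N := by
        rw [div_le_div_iff₀ hNsq hN0]
        have e : (N : ℝ) ^ (2 : ℝ) = N * N := by
          rw [show (2 : ℝ) = ((2 : ℕ) : ℝ) by norm_num, Real.rpow_natCast]; ring
        rw [e]
        have e2 : 3 * (N : ℝ) ≤ N * N := by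
          have := mul_le_mul_of_nonneg_right hN4r hN0.le
          linarith
        have e3 := mul_le_mul_of_nonneg_left e2 hY0.le
        linarith

/-- the exceptional degrees with square discriminants -/
lemma count_sq (A : ℝ) (hA : 1 ≤ A) : ∀ᶠ N : ℕ in atTop, ∀ Y : ℝ, 1 ≤ Y → Y ≤ (N : ℝ) ^ A →
    ∀ (S : Finset ℤ) (κ : ℤ → ℤ), (∀ d ∈ S, (d : ℝ) ≤ Y ∧ Cond N (κ d) d ∧
      IsSquare ((κ d) ^ 2 - 4 * d)) →
      (S.card : ℝ) ≤ Y * (2 * A * Real.log N + 1) / (N - 2) := by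
  classical
  filter_upwards [log_small (2 * A) 1 one_pos, disc_small A 1 (by linarith) one_pos,
    eventually_ge_atTop 8] with N hl hsm hN8 Y hY1 hYA S κ hS
  rw [Real.rpow_one] at hl
  have hN8r : (8 : ℝ) ≤ N := by exact_mod_cast hN8
  have hN0 : (0 : ℝ) < N := by linarith
  have hY0 : (0 : ℝ) < Y := by linarith
  have hlog : 0 ≤ Real.log N := Real.log_natCast_nonneg N
  have hN2 : ((N - 2 : ℕ) : ℝ) = (N : ℝ) - 2 := by
    rw [Nat.cast_sub (by omega)]; norm_num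
  have hN20 : (0 : ℝ) < (N : ℝ) - 2 := by linarith
  -- the integers `x`, `y`
  have hmain : ∀ d ∈ S, ∃ x y : ℤ, d = (x + 1) * (y + 1) ∧ (N : ℤ) - 2 ≤ y ∧ y ≤ x ∧
      ((x : ℝ) - y) * (N - 2) ≤ 2 * (A * Real.log N) * y ∧ (y : ℝ) ≤ √Y := by
    intro d hd
    obtain ⟨g1, g2, g3⟩ := hS d hd
    obtain ⟨-, g4⟩ := hsm (κ d) d g2 (g1.trans hYA)
    obtain ⟨a, b, hab, hab2⟩ := Pool.Agent.N998.CT.split_of_square (κ d) d g3
    have hgen : ∀ a b : ℤ, κ d = a + b → d = a * b → b ≤ a →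
        ∃ x y : ℤ, d = (x + 1) * (y + 1) ∧ (N : ℤ) - 2 ≤ y ∧ y ≤ x ∧
        ((x : ℝ) - y) * (N - 2) ≤ 2 * (A * Real.log N) * y ∧ (y : ℝ) ≤ √Y := by
      intro a b hab hab2 hba
      obtain ⟨k1, k2⟩ := integral_case N (by omega) (κ d) d a b g2 hab hab2 hba
      have hb8 : (8 : ℤ) ≤ N := by exact_mod_cast hN8
      have hy0 : (0 : ℝ) < (b : ℝ) - 1 := by
        have : (0 : ℤ) < b - 1 := by linarith
        exact_mod_cast this
      have hxy : (b : ℝ) - 1 ≤ (a : ℝ) - 1 := by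
        have : (b : ℝ) ≤ a := by exact_mod_cast hba
        linarith
      refine ⟨a - 1, b - 1, by rw [hab2]; ring, by linarith, by linarith, ?_, ?_⟩
      · set r : ℝ := ((a : ℝ) - 1) / (b - 1) with hr
        have hr1 : 1 ≤ r := by
          rw [hr, le_div_iff₀ hy0]; linarith
        have h3 : r ^ (N - 2) ≤ 1 + ((a : ℝ) - b) := by
          rw [hr, div_pow, div_le_iff₀ (by positivity)]
          exact_mod_cast k2
        have h4 : 1 + ((a : ℝ) - b) ≤ d := by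
          have h5 : 1 + (a - b) ≤ d := by rw [hab2]; nlinarith
          exact_mod_cast h5
        have h5 : r ^ (N - 2) ≤ Real.exp (A * Real.log N) := by
          rw [← rpow_exp N A (by omega)]
          exact (h3.trans h4).trans (g1.trans hYA)
        have h6 := root_le r A (Real.log N) (N - 2) (by omega) hr1 (by linarith) hlog
          (by rw [hN2]; nlinarith) h5
        rw [hN2] at h6
        have h7 : ((a : ℝ) - 1) = r * (b - 1) := by rw [hr]; field_simp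
        have h8 : (((a - 1 : ℤ) : ℝ) - ((b - 1 : ℤ) : ℝ)) = (r - 1) * (b - 1) := by
          push_cast
          rw [sub_mul, ← h7]; ring
        rw [h8]
        have h9 : (r - 1) * ((N : ℝ) - 2) ≤ 2 * (A * Real.log N) := by
          have h10 : r - 1 ≤ 2 * (A * Real.log N) / ((N : ℝ) - 2) := by linarith
          rwa [le_div_iff₀ hN20] at h10
        calc (r - 1) * ((b : ℝ) - 1) * ((N : ℝ) - 2)
            = ((r - 1) * ((N : ℝ) - 2)) * (b - 1) := by ring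
          _ ≤ 2 * (A * Real.log N) * (b - 1) := mul_le_mul_of_nonneg_right h9 hy0.le
          _ = _ := by push_cast; ring
      · apply Real.le_sqrt_of_sq_le
        refine le_trans ?_ g1
        have h5 : (b - 1) ^ 2 ≤ d := by rw [hab2]; nlinarith
        exact_mod_cast h5
    rcases le_total b a with hba | hba
    · exact hgen a b hab hab2 hba
    · exact hgen b a (by rw [hab]; ring) (by rw [hab2]; ring) hba
  choose! X₁ Y₁ hX using hmain
  rcases S.eq_empty_or_nonempty with rfl | ⟨d₀, hd₀⟩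
  · rw [Finset.card_empty, Nat.cast_zero]; positivity
  have hYN : (N : ℝ) - 2 ≤ √Y := by
    obtain ⟨-, g2, -, -, g5⟩ := hX d₀ hd₀
    have : ((N : ℝ) - 2) ≤ (Y₁ d₀ : ℝ) := by exact_mod_cast g2
    linarith
  set η : ℝ := 2 * (A * Real.log N) / ((N : ℝ) - 2) with hη
  have hη0 : 0 ≤ η := by positivity
  have hcard : S.card ≤ (Finset.Icc 1 ⌊√Y⌋₊ ×ˢ Finset.range (⌊η * √Y⌋₊ + 1)).card := by
    apply Finset.card_le_card_of_injOn (fun d => ((Y₁ d).toNat, (X₁ d - Y₁ d).toNat))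
    · intro d hd
      rw [Finset.mem_coe] at hd
      obtain ⟨g1, g2, g3, g4, g5⟩ := hX d hd
      have hb8 : (8 : ℤ) ≤ N := by exact_mod_cast hN8
      have hy1 : (1 : ℤ) ≤ Y₁ d := by linarith
      rw [Finset.mem_coe, Finset.mem_product, Finset.mem_Icc, Finset.mem_range]
      refine ⟨⟨?_, ?_⟩, ?_⟩
      · show 1 ≤ (Y₁ d).toNat
        omega
      · show (Y₁ d).toNat ≤ ⌊√Y⌋₊
        apply Nat.le_floor
        have e : (((Y₁ d).toNat : ℕ) : ℝ) = (Y₁ d : ℝ) := by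
          have := Int.toNat_of_nonneg (show 0 ≤ Y₁ d by omega)
          exact_mod_cast this
        rw [e]; exact g5
      · show (X₁ d - Y₁ d).toNat < ⌊η * √Y⌋₊ + 1
        rw [Nat.lt_succ_iff]
        apply Nat.le_floor
        have e : (((X₁ d - Y₁ d).toNat : ℕ) : ℝ) = (X₁ d : ℝ) - Y₁ d := by
          have := Int.toNat_of_nonneg (show 0 ≤ X₁ d - Y₁ d by omega)
          have h2 : (((X₁ d - Y₁ d).toNat : ℤ) : ℝ) = ((X₁ d - Y₁ d : ℤ) : ℝ) := by rw [this]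
          push_cast at h2
          exact h2
        rw [e]
        have h6 : (X₁ d : ℝ) - Y₁ d ≤ η * Y₁ d := by
          rw [hη, div_mul_eq_mul_div, le_div_iff₀ hN20]
          exact g4
        exact h6.trans (mul_le_mul_of_nonneg_left g5 hη0)
    · intro d hd d' hd' h
      rw [Finset.mem_coe] at hd hd'
      obtain ⟨g1, g2, g3, -, -⟩ := hX d hd
      obtain ⟨g1', g2', g3', -, -⟩ := hX d' hd'
      have hb8 : (8 : ℤ) ≤ N := by exact_mod_cast hN8
      simp only [Prod.mk.injEq] at h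
      obtain ⟨h1, h2⟩ := h
      have h3 : Y₁ d = Y₁ d' := by omega
      have h4 : X₁ d = X₁ d' := by omega
      rw [g1, g1', h3, h4]
  rw [Finset.card_product, Nat.card_Icc, Finset.card_range, Nat.add_sub_cancel] at hcard
  have h1 : (⌊√Y⌋₊ : ℝ) ≤ √Y := Nat.floor_le (by positivity)
  have h2 : (⌊η * √Y⌋₊ : ℝ) ≤ η * √Y := Nat.floor_le (by positivity)
  have h6 : √Y * √Y = Y := Real.mul_self_sqrt hY0.le
  calc (S.card : ℝ) ≤ ((⌊√Y⌋₊ * (⌊η * √Y⌋₊ + 1) : ℕ) : ℝ) := by exact_mod_cast hcard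
    _ = (⌊√Y⌋₊ : ℝ) * ((⌊η * √Y⌋₊ : ℝ) + 1) := by push_cast; ring
    _ ≤ √Y * (η * √Y + 1) := by gcongr
    _ = η * (√Y * √Y) + √Y := by ring
    _ = η * Y + √Y := by rw [h6]
    _ ≤ η * Y + Y / (N - 2) := by
        have : √Y ≤ Y / (N - 2) := by
          rw [le_div_iff₀ hN20]
          calc √Y * ((N : ℝ) - 2) ≤ √Y * √Y := by gcongr
            _ = Y := h6
        linarith
    _ = _ := by rw [hη]; field_simp

/-- **Almost all degrees.** -/
theorem count_deg (A : ℝ) (hA : 1 ≤ A) : ∀ᶠ N : ℕ in atTop, ∀ Y : ℝ, 1 ≤ Y →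
    Y ≤ (N : ℝ) ^ A → ∀ S : Finset ℤ, (∀ d ∈ S, (d : ℝ) ≤ Y ∧ ∃ c₁, Cond N c₁ d) →
      (S.card : ℝ) ≤ 4 * A * Y * Real.log N / N := by
  classical
  filter_upwards [count_sq A hA, count_nonsq A hA, eventually_ge_atTop 13]
    with N h1 h2 hN Y hY1 hYA S hS
  have hNr : (13 : ℝ) ≤ N := by exact_mod_cast hN
  have hN0 : (0 : ℝ) < N := by linarith
  have hY0 : (0 : ℝ) < Y := by linarith
  have hlog : 2.5 ≤ Real.log N := by
    rw [Real.le_log_iff_exp_le hN0]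
    have e1 : Real.exp 2.5 = Real.exp 1 ^ 2 * Real.exp (1 / 2) := by
      rw [← Real.exp_nat_mul, ← Real.exp_add]; norm_num
    have e2 := Real.exp_one_lt_d9
    have e3 := exp_half_bounds.2
    have e4 : 0 < Real.exp 1 := Real.exp_pos 1
    have e5 : Real.exp 1 ^ 2 ≤ 7.4 := by nlinarith
    rw [e1]
    have e6 : Real.exp 1 ^ 2 * Real.exp (1 / 2) ≤ 7.4 * 1.65 := by gcongr
    linarith
  have hS' : ∀ d ∈ S, ∃ c₁, Cond N c₁ d := fun d hd => (hS d hd).2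
  choose! κ hκ using hS'
  have h3 := h1 Y hY1 hYA (S.filter fun d => IsSquare ((κ d) ^ 2 - 4 * d)) κ (by
    intro d hd
    rw [Finset.mem_filter] at hd
    exact ⟨(hS d hd.1).1, hκ d hd.1, hd.2⟩)
  have h4 := h2 Y hY1 hYA (S.filter fun d => ¬ IsSquare ((κ d) ^ 2 - 4 * d)) κ (by
    intro d hd
    rw [Finset.mem_filter] at hd
    exact ⟨(hS d hd.1).1, hκ d hd.1, hd.2⟩)
  have h5 := Finset.card_filter_add_card_filter_not (s := S)
    (fun d => IsSquare ((κ d) ^ 2 - 4 * d))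
  have h6 : (S.card : ℝ) = ((S.filter fun d => IsSquare ((κ d) ^ 2 - 4 * d)).card : ℝ) +
      ((S.filter fun d => ¬ IsSquare ((κ d) ^ 2 - 4 * d)).card : ℝ) := by
    exact_mod_cast h5.symm
  rw [h6]
  have h7 : Y * (2 * A * Real.log N + 1) / (N - 2) ≤ Y * (3 * A * Real.log N + 1.5) / N := by
    rw [div_le_div_iff₀ (by linarith) hN0]
    have h8 : (N : ℝ) ≤ 1.5 * (N - 2) := by linarith
    have h9 : 0 ≤ Y * (2 * A * Real.log N + 1) := by positivity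
    calc Y * (2 * A * Real.log N + 1) * N ≤ Y * (2 * A * Real.log N + 1) * (1.5 * (N - 2)) :=
          mul_le_mul_of_nonneg_left h8 h9
      _ = _ := by ring
  calc _ ≤ Y * (3 * A * Real.log N + 1.5) / N + Y / N := add_le_add (h3.trans h7) h4
    _ = Y * (3 * A * Real.log N + 2.5) / N := by ring
    _ ≤ Y * (4 * A * Real.log N) / N := by
        gcongr
        nlinarith
    _ = _ := by ring

end Pool.Agent.N998.CT
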