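import Pool.Agent.N998.CT.Size

set_option autoImplicit false

/-! No small negative discriminants. -/

namespace Pool.Agent.N998.CT

open Finset

lemma pr_size (J m e : ℕ) (he : e ≤ 1) (hm : m ≤ 4 * J ^ 2) (h : ℕ) (hJ : J ≤ h) :
    pr m e h * (2 * J).factorial ≤ (8 * J ^ 2) ^ J * 2 ^ (h - J) * (2 * h).factorial := by
  induction h, hJ using Nat.le_induction with
  | base =>
    rw [Nat.sub_self, pow_zero, mul_one]
    apply Nat.mul_le_mul_right
    unfold pr
    calc ∏ j ∈ range J, (m + (2 * j + e) ^ 2) ≤ ∏ _j ∈ range J, (8 * J ^ 2) := by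
          apply prod_le_prod' 
          intro j hj
          rw [mem_range] at hj
          have h1 : 2 * j + e ≤ 2 * J := by omega
          have h2 : (2 * j + e) ^ 2 ≤ (2 * J) ^ 2 := Nat.pow_le_pow_left h1 2
          nlinarith
      _ = _ := by rw [prod_const, card_range]
  | succ h hJh ih =>
    rw [pr_succ]
    have e1 : 2 * (h + 1) = (2 * h + 1) + 1 := by ring
    have e2 : h + 1 - J = (h - J) + 1 := by omega
    rw [e1, Nat.factorial_succ, Nat.factorial_succ, e2, pow_succ]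
    have h1 : m + (2 * h + e) ^ 2 ≤ 2 * ((2 * h + 1 + 1) * (2 * h + 1)) := by
      have h2 : (2 * h + e) ^ 2 ≤ (2 * h + 1) ^ 2 := Nat.pow_le_pow_left (by omega) 2
      have h3 : J ^ 2 ≤ h ^ 2 := Nat.pow_le_pow_left hJh 2
      nlinarith
    calc pr m e h * (m + (2 * h + e) ^ 2) * (2 * J).factorial
        = (pr m e h * (2 * J).factorial) * (m + (2 * h + e) ^ 2) := by ring
      _ ≤ ((8 * J ^ 2) ^ J * 2 ^ (h - J) * (2 * h).factorial) *
          (2 * ((2 * h + 1 + 1) * (2 * h + 1))) := Nat.mul_le_mul ih h1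
      _ = _ := by ring

lemma fac_size (J h : ℕ) (hJ : 1 ≤ J) (hh : 3 * J + 1 ≤ h) :
    (8 * J ^ 2) ^ J < 2 ^ (h + J - 1) * (2 * J).factorial := by
  have h1 := Real.pow_div_factorial_le_exp ((2 * J : ℕ) : ℝ) (by positivity) (2 * J)
  have hf : (0 : ℝ) < ((2 * J).factorial : ℝ) := by positivity
  rw [div_le_iff₀ hf] at h1
  have h2 : Real.exp ((2 * J : ℕ) : ℝ) < 2 ^ (3 * J) := by
    have e1 : Real.exp ((2 * J : ℕ) : ℝ) = (Real.exp 1 ^ 2) ^ J := by
      rw [← pow_mul, ← Real.exp_nat_mul, mul_one]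
    rw [e1, pow_mul]
    have e2 := Real.exp_one_lt_d9
    have e3 : 0 < Real.exp 1 := Real.exp_pos 1
    have e4 : Real.exp 1 ^ 2 < 2 ^ 3 := by nlinarith
    exact pow_lt_pow_left₀ e4 (by positivity) (by omega)
  have h3 : ((8 * J ^ 2 : ℕ) : ℝ) ^ J = 2 ^ J * ((2 * J : ℕ) : ℝ) ^ (2 * J) := by
    rw [pow_mul, ← mul_pow]
    congr 1
    push_cast; ring
  have h4 : (((8 * J ^ 2) ^ J : ℕ) : ℝ) < ((2 ^ (h + J - 1) * (2 * J).factorial : ℕ) : ℝ) := by
    rw [Nat.cast_pow, h3]
    calc (2 : ℝ) ^ J * ((2 * J : ℕ) : ℝ) ^ (2 * J)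
        ≤ 2 ^ J * (Real.exp ((2 * J : ℕ) : ℝ) * ((2 * J).factorial : ℝ)) := by gcongr
      _ < 2 ^ J * (2 ^ (3 * J) * ((2 * J).factorial : ℝ)) := by gcongr
      _ = 2 ^ (J + 3 * J) * ((2 * J).factorial : ℝ) := by rw [pow_add]; ring
      _ ≤ 2 ^ (h + J - 1) * ((2 * J).factorial : ℝ) := by
          gcongr
          · norm_num
          · omega
      _ = _ := by push_cast; ring
  exact_mod_cast h4

/-- the product is smaller than the modulus -/
lemma pr_lt (J m e h : ℕ) (he : e ≤ 1) (hm : m ≤ 4 * J ^ 2) (hJ : 1 ≤ J) (hh : 3 * J + 1 ≤ h) :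
    pr m e h < md h := by
  have h1 := pr_size J m e he hm h (by omega)
  have h2 := fac_size J h hJ hh
  have hf : 0 < (2 * J).factorial := Nat.factorial_pos _
  have hf' : 0 < (2 * h).factorial := Nat.factorial_pos _
  have h3 : pr m e h * (2 * J).factorial < md h * (2 * J).factorial := by
    calc pr m e h * (2 * J).factorial
        ≤ (8 * J ^ 2) ^ J * 2 ^ (h - J) * (2 * h).factorial := h1
      _ < (2 ^ (h + J - 1) * (2 * J).factorial) * 2 ^ (h - J) * (2 * h).factorial := by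
          gcongr
      _ = _ := by
          unfold md
          have e1 : 2 ^ (2 * h - 1) = 2 ^ (h + J - 1) * 2 ^ (h - J) := by
            rw [← pow_add]; congr 1; omega
          rw [e1]; ring
  exact lt_of_mul_lt_mul_right h3 (Nat.zero_le _)

lemma pr_pos (m e h : ℕ) (hm : 0 < m) : 0 < pr m e h := by
  unfold pr
  exact prod_pos fun j _ => by positivity

/-- **No small negative discriminants.** -/
theorem no_small (N m e : ℕ) (hN : 12 ≤ N) (he : e ≤ 1) (hm : 0 < m) (hme : (m + e) % 4 = 0)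
    (hb : m * (4 * (N - 1) ^ 2 + 49) ≤ 196 * (N - 1) * (N - 2) ^ 2)
    (hdiv : ∀ h : ℕ, 1 ≤ h → 2 * h ≤ N → md h ∣ pr m e h) : False := by
  obtain ⟨n, rfl⟩ : ∃ n, N = n + 2 := ⟨N - 2, by omega⟩
  have e1 : n + 2 - 1 = n + 1 := by omega
  have e2 : n + 2 - 2 = n := by omega
  rw [e1, e2] at hb
  -- `m < 49 n`
  have hmn : m < 49 * n := by
    by_contra hcon
    push Not at hcon
    have h1 : 49 * n * (4 * (n + 1) ^ 2 + 49) ≤ m * (4 * (n + 1) ^ 2 + 49) :=
      Nat.mul_le_mul_right _ hcon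
    nlinarith
  -- a test which is true gives a contradiction
  have key : ∀ l, 1 < l → 2 * l ≤ n + 2 → ¬ md l ∣ pr m e l → False :=
    fun l h1 h2 h3 => h3 (hdiv l (by omega) h2)
  -- the index of `m`
  have hcase : (∃ i, m = 4 * i + 3 ∧ e = 1) ∨ (∃ i, m = 4 * i + 4 ∧ e = 0) := by
    rcases Nat.le_one_iff_eq_zero_or_eq_one.mp he with h | h
    · right
      exact ⟨m / 4 - 1, by omega, h⟩
    · left
      exact ⟨m / 4, by omega, h⟩
  by_cases hN1 : n ≤ 11
  · -- `N = 12`, `N = 13`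
    have hm1 : m < 479 := by
      have h3 : n = 10 ∨ n = 11 := by omega
      rcases h3 with rfl | rfl
      · omega
      · omega
    rcases hcase with ⟨i, rfl, rfl⟩ | ⟨i, rfl, rfl⟩
    · have h4 := allb_spec _ _ _ blockA i (by omega) (by omega)
      obtain ⟨⟨l, h5, h6, h7⟩, -⟩ := both_spec _ _ h4
      exact key l h5 (by omega) h7
    · have h4 := allb_spec _ _ _ blockA i (by omega) (by omega)
      obtain ⟨-, l, h5, h6, h7⟩ := both_spec _ _ h4
      exact key l h5 (by omega) h7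
  by_cases hN2 : n ≤ 31
  · have hm1 : m < 1559 := by omega
    rcases hcase with ⟨i, rfl, rfl⟩ | ⟨i, rfl, rfl⟩
    · have h4 := allb_spec _ _ _ blockB i (by omega) (by omega)
      obtain ⟨⟨l, h5, h6, h7⟩, -⟩ := both_spec _ _ h4
      exact key l h5 (by omega) h7
    · have h4 := allb_spec _ _ _ blockB i (by omega) (by omega)
      obtain ⟨-, l, h5, h6, h7⟩ := both_spec _ _ h4
      exact key l h5 (by omega) h7
  by_cases hN3 : n ≤ 457
  · have hb16 : ∀ i, i < 6000 → both 16 i = true := by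
      intro i hi
      rcases lt_or_ge i 1000 with h | h
      · exact allb_spec _ _ _ blockC0 i (by omega) (by omega)
      rcases lt_or_ge i 2000 with h' | h'
      · exact allb_spec _ _ _ blockC1 i (by omega) (by omega)
      rcases lt_or_ge i 3000 with h'' | h''
      · exact allb_spec _ _ _ blockC2 i (by omega) (by omega)
      rcases lt_or_ge i 4000 with h''' | h'''
      · exact allb_spec _ _ _ blockC3 i (by omega) (by omega)
      rcases lt_or_ge i 5000 with h4 | h4
      · exact allb_spec _ _ _ blockC4 i (by omega) (by omega)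
      · exact allb_spec _ _ _ blockC5 i (by omega) (by omega)
    rcases hcase with ⟨i, rfl, rfl⟩ | ⟨i, rfl, rfl⟩
    · obtain ⟨⟨l, h5, h6, h7⟩, -⟩ := both_spec _ _ (hb16 i (by omega))
      exact key l h5 (by omega) h7
    · obtain ⟨-, l, h5, h6, h7⟩ := both_spec _ _ (hb16 i (by omega))
      exact key l h5 (by omega) h7
  -- large `N`
  · push Not at hN3
    set h : ℕ := (n + 2) / 2 with hh
    have h1 : 230 ≤ h := by omega
    have h2 : m ≤ 98 * h := by omega
    set J : ℕ := Nat.sqrt (98 * h) / 2 + 1 with hJ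
    have h3 : m ≤ 4 * J ^ 2 := by
      have h4 : 98 * h < (Nat.sqrt (98 * h) + 1) * (Nat.sqrt (98 * h) + 1) := Nat.lt_succ_sqrt _
      have h5 : Nat.sqrt (98 * h) + 1 ≤ 2 * J := by omega
      have h6 : (Nat.sqrt (98 * h) + 1) * (Nat.sqrt (98 * h) + 1) ≤ (2 * J) * (2 * J) :=
        Nat.mul_le_mul h5 h5
      nlinarith
    have h4 : 3 * J + 1 ≤ h := by
      have h5 : Nat.sqrt (98 * h) * Nat.sqrt (98 * h) ≤ 98 * h := Nat.sqrt_le _
      set r : ℕ := Nat.sqrt (98 * h) with hr
      by_contra hcon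
      push Not at hcon
      have h6 : 2 * h ≤ 3 * r + 7 := by omega
      have h7 : (2 * h) * (2 * h) ≤ (3 * r + 7) * (3 * r + 7) := Nat.mul_le_mul h6 h6
      have h8 : r * r ≤ 98 * h := h5
      have h9 : r ≤ h := by
        by_contra hc
        push Not at hc
        nlinarith
      nlinarith
    have h5 := pr_lt J m e h he h3 (by omega) h4
    have h6 := hdiv h (by omega) (by omega)
    exact absurd (Nat.le_of_dvd (pr_pos m e h hm) h6) (not_le.mpr h5)

end Pool.Agent.N998.CT
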