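import Pool.Agent.N998.CT.Real
import Pool.Agent.N998.CT.Small
import Pool.Agent.R920.CH.Two

set_option autoImplicit false

/-! The cubic bound. -/

namespace Pool.Agent.N998.CT

open Pool.Agent.R920.CH Finset

/-- **The sector.** If `p² < 4 q` and the first `n ≥ 11` numbers `h_j` are not negative, then
`4 n² (4 q - p²) ≤ 49 p²`. -/
theorem sector11 (p q : ℤ) (hD : p ^ 2 < 4 * q) (n : ℕ) (hn : 11 ≤ n)
    (h : ∀ j < n, 0 ≤ seg p q j) :
    0 < p ∧ 4 * (n : ℤ) ^ 2 * (4 * q - p ^ 2) ≤ 49 * p ^ 2 := by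
  have hq0 : 0 < q := by nlinarith [sq_nonneg p]
  have hDr : (p : ℝ) ^ 2 < 4 * q := by exact_mod_cast hD
  have hq0r : (0 : ℝ) < q := by exact_mod_cast hq0
  set ρ : ℝ := Real.sqrt q with hρ
  have hρ0 : 0 < ρ := Real.sqrt_pos.mpr hq0r
  have hρ2 : ρ ^ 2 = q := Real.sq_sqrt hq0r.le
  set x : ℝ := p / (2 * ρ) with hx
  have hx2 : x ^ 2 < 1 := by
    rw [hx, div_pow, mul_pow, hρ2, div_lt_one (by positivity)]
    linarith
  have hx1 : -1 < x ∧ x < 1 := by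
    rw [← abs_lt]
    rw [← sq_lt_one_iff_abs_lt_one]
    exact hx2
  set θ : ℝ := Real.arccos x with hθ
  have hcos : Real.cos θ = x := Real.cos_arccos hx1.1.le hx1.2.le
  have hθ0 : 0 < θ := Real.arccos_pos.mpr hx1.2
  have hθpi : θ < Real.pi := by
    rw [hθ]
    refine lt_of_le_of_ne (Real.arccos_le_pi x) ?_
    intro h1
    have h2 : Real.cos θ = -1 := by rw [hθ, h1, Real.cos_pi]
    linarith [hx1.1]
  have hsin : 0 < Real.sin θ := Real.sin_pos_of_pos_of_lt_pi hθ0 hθpi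
  have hp : (p : ℝ) = 2 * ρ * Real.cos θ := by
    rw [hcos, hx]
    field_simp
  have hst := seg_trig p q ρ θ hp hρ2.symm
  have hth : θ ≤ Real.pi / n := by
    apply theta_le θ hθ0 hθpi n (by omega)
    intro j hj
    have h1 := hst j
    have h2 : (0 : ℝ) ≤ seg p q j := by exact_mod_cast h j hj
    have h3 : 0 ≤ ρ ^ j * Real.sin ((j + 1) * θ) := by rw [← h1]; positivity
    exact nonneg_of_mul_nonneg_right h3 (by positivity)
  have hn0 : (11 : ℝ) ≤ n := by exact_mod_cast hn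
  have hth2 : θ ≤ Real.pi / 11 := hth.trans (by
    apply div_le_div_of_nonneg_left Real.pi_pos.le (by norm_num) hn0)
  have hpi4 : Real.pi < 3.15 := Real.pi_lt_d2
  have hcos1 : 1 - θ ^ 2 / 2 ≤ Real.cos θ := Real.one_sub_sq_div_two_le_cos
  have hth3 : θ ≤ 0.2864 := by linarith
  have hcos2 : 0.95 ≤ Real.cos θ := by nlinarith
  have hsin1 : Real.sin θ ≤ θ := Real.sin_le hθ0.le
  have hp0r : 0 < (p : ℝ) := by rw [hp]; positivity
  have hp0 : 0 < p := by exact_mod_cast hp0r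
  refine ⟨hp0, ?_⟩
  have e : 4 * (q : ℝ) - p ^ 2 = (2 * ρ * Real.sin θ) ^ 2 := by
    have := Real.sin_sq_add_cos_sq θ
    rw [hp, ← hρ2]
    nlinarith
  have h1 : 2 * (Real.sin θ * n) ≤ 7 * Real.cos θ := by
    have h2 : θ * n ≤ Real.pi := by
      rwa [le_div_iff₀ (by linarith)] at hth
    have h3 : Real.sin θ * n ≤ θ * n := by gcongr
    linarith
  have h2 : (2 * (Real.sin θ * n)) ^ 2 ≤ (7 * Real.cos θ) ^ 2 :=
    pow_le_pow_left₀ (by positivity) h1 2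
  have h3 : 4 * (n : ℝ) ^ 2 * (4 * (q : ℝ) - p ^ 2) ≤ 49 * (p : ℝ) ^ 2 := by
    rw [e, hp]
    have h4 : (2 * ρ) ^ 2 * (2 * (Real.sin θ * n)) ^ 2 ≤ (2 * ρ) ^ 2 * (7 * Real.cos θ) ^ 2 :=
      mul_le_mul_of_nonneg_left h2 (by positivity)
    nlinarith
  exact_mod_cast h3

/-- **The cubic bound**, the case of negative discriminants. -/
theorem cubic_neg (N : ℕ) (hN : 12 ≤ N) (c₁ d : ℤ) (hRR : RiemannRoch N (poly2 c₁ d))
    (hseg : ∀ j : ℕ, j + 2 ≤ N → 0 ≤ seg (c₁ - 2) (d - c₁ + 1) j) (hD : c₁ ^ 2 < 4 * d) :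
    ((N : ℤ) - 1) * ((N : ℤ) - 2) ^ 2 < d := by
  by_contra hcon
  push Not at hcon
  have hD' : (c₁ - 2) ^ 2 < 4 * (d - c₁ + 1) := by linarith
  obtain ⟨hp, hs⟩ := sector11 (c₁ - 2) (d - c₁ + 1) hD' (N - 1) (by omega)
    (fun j hj => hseg j (by omega))
  obtain ⟨n, rfl⟩ : ∃ n, N = n + 2 := ⟨N - 2, by omega⟩
  have e1 : n + 2 - 1 = n + 1 := by omega
  rw [e1] at hs
  push_cast at hs hcon
  have e2 : 4 * (d - c₁ + 1) - (c₁ - 2) ^ 2 = 4 * d - c₁ ^ 2 := by ring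
  rw [e2] at hs
  -- `m = |D|`
  obtain ⟨m, hm⟩ : ∃ m : ℕ, (m : ℤ) = 4 * d - c₁ ^ 2 := ⟨(4 * d - c₁ ^ 2).toNat, by
    rw [Int.toNat_of_nonneg (by linarith)]⟩
  obtain ⟨e, he⟩ : ∃ e : ℕ, (e : ℤ) = c₁ % 2 := ⟨(c₁ % 2).toNat, by
    rw [Int.toNat_of_nonneg (by omega)]⟩
  rw [← hm] at hs
  have hc1sq : (c₁ - 2) ^ 2 ≤ c₁ ^ 2 := by nlinarith
  have hmb : (m : ℤ) * (4 * (n + 1) ^ 2 + 49) ≤ 196 * (n + 1) * n ^ 2 := by
    have h1 : c₁ ^ 2 = 4 * d - m := by linarith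
    have h2 : (4 : ℤ) * ((n : ℤ) + 1) ^ 2 * m ≤ 49 * (4 * d - m) := by
      rw [← h1]; linarith
    have h3 : ((n : ℤ) + 2 - 1) * ((n : ℤ) + 2 - 2) ^ 2 = (n + 1) * n ^ 2 := by ring
    rw [h3] at hcon
    nlinarith
  refine no_small (n + 2) m e hN (by omega) (by zify; linarith) ?_ ?_ ?_
  · -- the residue modulo `4`
    have h1 : c₁ = 2 * (c₁ / 2) + e := by omega
    have h2 : (e : ℤ) = 0 ∨ (e : ℤ) = 1 := by omega
    have h3 : ((m : ℤ) + e) % 4 = 0 := by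
      rw [hm, h1]
      rcases h2 with h2 | h2
      · rw [h2]
        have : 4 * d - (2 * (c₁ / 2) + 0) ^ 2 + 0 = 4 * (d - (c₁ / 2) ^ 2) := by ring
        rw [this]; exact Int.mul_emod_right _ _
      · rw [h2]
        have : 4 * d - (2 * (c₁ / 2) + 1) ^ 2 + 1 = 4 * (d - (c₁ / 2) ^ 2 - c₁ / 2) := by ring
        rw [this]; exact Int.mul_emod_right _ _
    omega
  · rw [e1, show n + 2 - 2 = n by omega]
    exact_mod_cast hmb
  · intro h h1 h2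
    have h3 := divis hRR h1 h2
    have e3 : ∀ j ∈ range h, (c₁ ^ 2 - 4 * d - (2 * (j : ℤ) + c₁ % 2) ^ 2) =
        -((m : ℤ) + (2 * j + e) ^ 2) := by
      intro j _
      rw [he, hm]; ring
    rw [prod_congr rfl e3, prod_neg] at h3
    have h4 : (2 ^ (2 * h - 1) * (2 * h).factorial : ℤ) ∣
        ∏ j ∈ range h, ((m : ℤ) + (2 * j + e) ^ 2) := by
      rcases neg_one_pow_eq_or ℤ (range h).card with h5 | h5
      · rw [h5, one_mul] at h3; exact h3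
      · rw [h5, neg_one_mul, dvd_neg] at h3; exact h3
    unfold md pr
    exact_mod_cast h4

/-- **The cubic bound**, the unstable case. -/
theorem cubic_pos (N : ℕ) (hN : 3 ≤ N) (c₁ d a b : ℤ) (hb : 0 < b) (hba : b ≤ a)
    (hab : a + b = c₁) (hz : (N : ℤ) - 1 ≤ d - a * b) (hD : 4 * d ≤ c₁ ^ 2)
    (h : ∀ j : ℕ, j + 3 ≤ N →
      (a - 1) * seg (c₁ - 2) (d - c₁ + 1) j ≤ seg (c₁ - 2) (d - c₁ + 1) (j + 1)) :
    ((N : ℤ) - 1) * ((N : ℤ) - 2) ^ 2 < d := by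
  obtain ⟨n, rfl⟩ : ∃ n, N = n + 3 := ⟨N - 3, by omega⟩
  push_cast at hz ⊢
  have h1 := main_ineq (a - 1) (b - 1) (d - a * b) (c₁ - 2) (d - c₁ + 1)
    (by linarith) (by rw [← hab]; ring) (by linarith) (by linarith) (by linarith)
    (by linarith) n (h n le_rfl)
  have h2 : ((n : ℤ) + 3 - 1) * ((n : ℤ) + 3 - 2) ^ 2 ≤ (d - a * b) * ((n : ℤ) + 1) ^ 2 := by
    have e : (n : ℤ) + 3 - 2 = n + 1 := by ring
    rw [e]
    apply mul_le_mul_of_nonneg_right _ (by positivity)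
    linarith
  linarith

end Pool.Agent.N998.CT
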