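import Pool.Agent.N998.CT.Seg
import Pool.Agent.R852.BC.Fin

set_option autoImplicit false

/-! The degree of a smooth subvariety of codimension two: positivity and Burgess' bound. -/

namespace Pool.Agent.N998.CT

open Filter Pool.Agent.R920.CH Pool.Agent.R852.BC

lemma ev_ge (c η : ℝ) (hη : 0 < η) : ∀ᶠ N : ℕ in atTop, c ≤ (N : ℝ) ^ η :=
  tendsto_natCast_atTop_atTop.eventually ((tendsto_rpow_atTop hη).eventually_ge_atTop c)

/-- **The stable case.** -/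
theorem stable (ε : ℝ) (hε : 0 < ε) : ∀ᶠ N : ℕ in atTop, ∀ c₁ d : ℤ,
    (∀ j : ℕ, j + 2 ≤ N → 0 ≤ seg (c₁ - 2) (d - c₁ + 1) j) →
    RiemannRoch N (poly2 c₁ d) → c₁ ^ 2 < 4 * d →
    (N : ℝ) ^ (4 * Real.exp (1 / 2) + 2 - ε) ≤ d ∧
      (N : ℝ) ^ (2 * Real.exp (1 / 2) + 1 - ε) ≤ c₁ ∧
      |(c₁ : ℝ) ^ 2 - 4 * d| * ((N : ℝ) - 1) ^ 2 ≤ 16 * (c₁ : ℝ) ^ 2 := by
  filter_upwards [rank_two 7 (ε / 2) (by positivity), ev_ge 256 (ε / 2) (by positivity),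
    eventually_ge_atTop 6] with N hN h256 hN6 c₁ d hseg hRR hD
  have hN6r : (6 : ℝ) ≤ N := by exact_mod_cast hN6
  have hN0 : (0 : ℝ) < N := by linarith
  have hN1 : (1 : ℝ) ≤ N := by linarith
  have hD' : (c₁ - 2) ^ 2 < 4 * (d - c₁ + 1) := by linarith
  obtain ⟨hp, hs⟩ := sector (c₁ - 2) (d - c₁ + 1) hD' (N - 1) (by omega)
    (fun j hj => hseg j (by omega))
  have hNs : ((N - 1 : ℕ) : ℝ) = (N : ℝ) - 1 := by
    rw [Nat.cast_sub (by omega)]; norm_num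
  rw [hNs] at hs
  have e1 : (4 * ((d - c₁ + 1 : ℤ) : ℝ) - ((c₁ - 2 : ℤ) : ℝ) ^ 2) = 4 * d - (c₁ : ℝ) ^ 2 := by
    push_cast; ring
  rw [e1] at hs
  have hDr : (c₁ : ℝ) ^ 2 < 4 * d := by exact_mod_cast hD
  have hpr : (0 : ℝ) < ((c₁ - 2 : ℤ) : ℝ) := by exact_mod_cast hp
  have hc1r : (2 : ℝ) < c₁ := by push_cast at hpr; linarith
  -- `|D| (N - 1)² ≤ 16 c₁²`
  have habs : |(c₁ : ℝ) ^ 2 - 4 * d| = 4 * d - (c₁ : ℝ) ^ 2 := by
    rw [abs_of_neg (by linarith)]; ring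
  have hkey : (4 * d - (c₁ : ℝ) ^ 2) * ((N : ℝ) - 1) ^ 2 ≤ 16 * (c₁ : ℝ) ^ 2 := by
    rw [le_div_iff₀ (by linarith)] at hs
    have h1 : (0 : ℝ) ≤ Real.sqrt (4 * d - (c₁ : ℝ) ^ 2) := Real.sqrt_nonneg _
    have h2 := Real.sq_sqrt (show (0 : ℝ) ≤ 4 * d - (c₁ : ℝ) ^ 2 by linarith)
    have h3 : (Real.sqrt (4 * d - (c₁ : ℝ) ^ 2) * ((N : ℝ) - 1)) ^ 2 ≤
        (4 * ((c₁ - 2 : ℤ) : ℝ)) ^ 2 := by
      apply pow_le_pow_left₀ _ hs
      apply mul_nonneg h1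
      linarith
    rw [mul_pow, h2] at h3
    push_cast at h3
    nlinarith
  -- the degree
  have hdeg : (N : ℝ) ^ (4 * Real.exp (1 / 2) + 2 - ε) ≤ d := by
    by_contra hcon
    push Not at hcon
    have hNsq : (N : ℝ) ^ 2 ≤ 4 * ((N : ℝ) - 1) ^ 2 := by nlinarith
    have h1 : (4 * d - (c₁ : ℝ) ^ 2) * (N : ℝ) ^ 2 ≤ 256 * d := by
      have h0 : (0 : ℝ) ≤ 4 * d - (c₁ : ℝ) ^ 2 := by linarith
      nlinarith [mul_le_mul_of_nonneg_left hNsq h0]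
    have h2 : (4 * d - (c₁ : ℝ) ^ 2) ≤ (N : ℝ) ^ (4 * Real.exp (1 / 2) - ε / 2) := by
      have e2 : (N : ℝ) ^ (4 * Real.exp (1 / 2) - ε / 2) * (N : ℝ) ^ 2 =
          (N : ℝ) ^ (ε / 2) * (N : ℝ) ^ (4 * Real.exp (1 / 2) + 2 - ε) := by
        rw [← Real.rpow_natCast, ← Real.rpow_add hN0, ← Real.rpow_add hN0]
        congr 1
        push_cast; ring
      have h3 : 256 * (d : ℝ) ≤ (N : ℝ) ^ (ε / 2) * (N : ℝ) ^ (4 * Real.exp (1 / 2) + 2 - ε) := by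
        have h4 : (0 : ℝ) ≤ d := by nlinarith
        calc 256 * (d : ℝ) ≤ (N : ℝ) ^ (ε / 2) * d := by gcongr
          _ ≤ _ := by gcongr
      have h5 := h1.trans h3
      rw [← e2] at h5
      exact le_of_mul_le_mul_right h5 (by positivity)
    have hexp := exp_half_bounds.2
    have h3 : ((|c₁ ^ 2 - 4 * d| : ℤ) : ℝ) ≤ (N : ℝ) ^ (4 * Real.exp (1 / 2) - ε / 2) := by
      push_cast
      rw [habs]
      exact h2
    obtain ⟨a, b, hab, hab2⟩ := hN c₁ d (c₁ ^ 2 - 4 * d) 1 hRR (by ring)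
      (h3.trans (Real.rpow_le_rpow_of_exponent_le hN1 (by linarith))) h3
    rw [hab, hab2] at hD
    nlinarith [sq_nonneg (a - b)]
  refine ⟨hdeg, ?_, by rw [habs]; exact hkey⟩
  -- `c₁`
  have hc2 : (d : ℝ) ≤ (c₁ : ℝ) ^ 2 := by
    by_contra hcon
    push Not at hcon
    have h1 : (25 : ℝ) ≤ ((N : ℝ) - 1) ^ 2 := by nlinarith
    have h2 : (3 * (c₁ : ℝ) ^ 2) * 25 ≤ (4 * d - (c₁ : ℝ) ^ 2) * ((N : ℝ) - 1) ^ 2 := by
      apply mul_le_mul _ h1 (by norm_num) (by linarith)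
      linarith
    nlinarith
  have h1 : ((N : ℝ) ^ (2 * Real.exp (1 / 2) + 1 - ε)) ^ 2 ≤ (c₁ : ℝ) ^ 2 := by
    calc ((N : ℝ) ^ (2 * Real.exp (1 / 2) + 1 - ε)) ^ 2
        = (N : ℝ) ^ (4 * Real.exp (1 / 2) + 2 - 2 * ε) := by
          rw [← Real.rpow_natCast, ← Real.rpow_mul hN0.le]
          congr 1
          push_cast; ring
      _ ≤ (N : ℝ) ^ (4 * Real.exp (1 / 2) + 2 - ε) :=
          Real.rpow_le_rpow_of_exponent_le hN1 (by linarith)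
      _ ≤ d := hdeg
      _ ≤ _ := hc2
  exact (pow_le_pow_iff_left₀ (by positivity) (by linarith) two_ne_zero).mp h1

/-- positivity of the degrees of the complete intersection -/
lemma ci_of (N : ℕ) (k d : ℤ) (hd : 0 < d) (hk : 0 < k + N + 1)
    (h : ∃ a b : ℤ, k + N + 1 = a + b ∧ d = a * b) :
    ∃ a b : ℤ, 0 < a ∧ 0 < b ∧ k = a + b - N - 1 ∧ d = a * b := by
  obtain ⟨a, b, h1, h2⟩ := h
  have hpos : 0 < a ∧ 0 < b := by
    rcases lt_trichotomy a 0 with h | h | h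
    · have : b < 0 := by
        by_contra hb
        push Not at hb
        nlinarith
      omega
    · rw [h, zero_mul] at h2
      omega
    · refine ⟨h, ?_⟩
      by_contra hb
      push Not at hb
      nlinarith
  exact ⟨a, b, hpos.1, hpos.2, by linarith, h2⟩

/-- **The unstable case.** -/
theorem unstable (ε : ℝ) (hε : 0 < ε) : ∀ᶠ N : ℕ in atTop, ∀ c₁ d a b : ℤ,
    RiemannRoch N (poly2 c₁ d) → 4 * d ≤ c₁ ^ 2 → (N : ℤ) - 1 ≤ b → b ≤ a → a + b = c₁ →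
    a * b < d → (¬ ∃ a b : ℤ, c₁ = a + b ∧ d = a * b) →
    (N : ℝ) ^ (2 * Real.exp (1 / 2) + 1 - ε) ≤ d := by
  filter_upwards [rank_two 7 ε (by positivity), ev_ge 16 ε (by positivity),
    eventually_ge_atTop 6] with N hN h16 hN6 c₁ d a b hRR hD hNb hba hab habd hci
  have hN6r : (6 : ℝ) ≤ N := by exact_mod_cast hN6
  have hN0 : (0 : ℝ) < N := by linarith
  have hN1 : (1 : ℝ) ≤ N := by linarith
  by_contra hcon
  push Not at hcon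
  apply hci
  have hNbr : (N : ℝ) - 1 ≤ b := by exact_mod_cast hNb
  have hbar : (b : ℝ) ≤ a := by exact_mod_cast hba
  have habr : (a : ℝ) + b = c₁ := by exact_mod_cast hab
  have habdr : (a : ℝ) * b < d := by exact_mod_cast habd
  have hDr : 4 * (d : ℝ) ≤ (c₁ : ℝ) ^ 2 := by exact_mod_cast hD
  have hb0 : (0 : ℝ) < b := by linarith
  have ha0 : (0 : ℝ) < a := by linarith
  -- `c₁ N ≤ 4 d`
  have h1 : (c₁ : ℝ) * N ≤ 4 * d := by
    have h2 : (N : ℝ) ≤ 2 * b := by linarith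
    have h3 : (c₁ : ℝ) ≤ 2 * a := by linarith
    calc (c₁ : ℝ) * N ≤ (2 * a) * (2 * b) := by
          apply mul_le_mul h3 h2 (by linarith) (by linarith)
      _ ≤ 4 * d := by linarith
  have hd0 : (0 : ℝ) < d := by nlinarith
  have hc0 : (0 : ℝ) < c₁ := by linarith
  -- `D N² ≤ 16 d²`
  have h2 : ((c₁ : ℝ) ^ 2 - 4 * d) * (N : ℝ) ^ 2 ≤ 16 * (d : ℝ) ^ 2 := by
    have h3 : ((c₁ : ℝ) * N) ^ 2 ≤ (4 * d) ^ 2 := pow_le_pow_left₀ (by positivity) h1 2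
    nlinarith [sq_nonneg (N : ℝ)]
  have h3 : (c₁ : ℝ) ^ 2 - 4 * d ≤ (N : ℝ) ^ (4 * Real.exp (1 / 2) - ε) := by
    have e1 : (N : ℝ) ^ (4 * Real.exp (1 / 2) - ε) * (N : ℝ) ^ 2 =
        (N : ℝ) ^ ε * ((N : ℝ) ^ (2 * Real.exp (1 / 2) + 1 - ε)) ^ 2 := by
      rw [← Real.rpow_natCast (N : ℝ) 2, ← Real.rpow_natCast _ 2, ← Real.rpow_mul hN0.le,
        ← Real.rpow_add hN0, ← Real.rpow_add hN0]
      congr 1
      push_cast; ring
    have h4 : 16 * (d : ℝ) ^ 2 ≤ (N : ℝ) ^ ε * ((N : ℝ) ^ (2 * Real.exp (1 / 2) + 1 - ε)) ^ 2 := by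
      gcongr
    have h5 := h2.trans h4
    rw [← e1] at h5
    exact le_of_mul_le_mul_right h5 (by positivity)
  have h4 : ((|c₁ ^ 2 - 4 * d| : ℤ) : ℝ) ≤ (N : ℝ) ^ (4 * Real.exp (1 / 2) - ε) := by
    push_cast
    rw [abs_of_nonneg (by linarith)]
    exact h3
  have hexp := exp_half_bounds.2
  exact hN c₁ d (c₁ ^ 2 - 4 * d) 1 hRR (by ring)
    (h4.trans (Real.rpow_le_rpow_of_exponent_le hN1 (by linarith))) h4

end Pool.Agent.N998.CT
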