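import Pool.Agent.N998.CT.Real
import Pool.Agent.N998.CT.Deg

set_option autoImplicit false

/-! The degree of the hypersurfaces: `z n² ≤ β²`. -/

namespace Pool.Agent.N998.CT

open Filter Pool.Agent.R920.CH Pool.Agent.R852.BC

lemma real_lower2 (x y : ℝ) (p q : ℤ) (hp : (p : ℝ) = x + y) (hq : (q : ℝ) = x * y)
    (hy : 0 ≤ y) (hxy : y ≤ x) :
    ∀ m : ℕ, ((m : ℝ) + 1) * (m + 2) * (x - y) * y ^ m + 2 * (m + 1) * y ^ (m + 1) ≤
      2 * x * seg p q m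
  | 0 => by
      simp only [seg]
      push_cast
      nlinarith
  | m + 1 => by
      have h := real_lower2 x y p q hp hq hy hxy m
      rw [real_succ x y p q hp hq m]
      have hx : 0 ≤ x := hy.trans hxy
      have hw : 0 ≤ x - y := by linarith
      have h1 := mul_le_mul_of_nonneg_left h hx
      have e1 : 2 * x * (y ^ (m + 1) + x * (seg p q m : ℝ)) =
          2 * x * y ^ (m + 1) + x * (2 * x * (seg p q m : ℝ)) := by ring
      rw [e1]
      have e2 : 2 * x * y ^ (m + 1) + x * (((m : ℝ) + 1) * (m + 2) * (x - y) * y ^ m +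
          2 * (m + 1) * y ^ (m + 1)) = (((m + 1 : ℕ) : ℝ) + 1) * ((m + 1 : ℕ) + 2) * (x - y) *
          y ^ (m + 1) + 2 * ((m + 1 : ℕ) + 1) * y ^ (m + 1 + 1) +
          ((m : ℝ) + 1) * (m + 2) * (x - y) ^ 2 * y ^ m := by
        push_cast; ring
      have h2 : 0 ≤ ((m : ℝ) + 1) * (m + 2) * (x - y) ^ 2 * y ^ m := by positivity
      linarith

lemma real_mul (x y : ℝ) (p q : ℤ) (hp : (p : ℝ) = x + y) (hq : (q : ℝ) = x * y) :
    ∀ j : ℕ, (x - y) * (seg p q j : ℝ) = x ^ (j + 1) - y ^ (j + 1)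
  | 0 => by simp [seg]
  | j + 1 => by
      have h := real_mul x y p q hp hq j
      rw [real_succ x y p q hp hq j]
      linear_combination x * h

/-- **The inequality for the degree of the hypersurface**: `z (m + 1)² ≤ β²`. -/
theorem hyp_ineq (α β z p q : ℤ) (hp : p = α + β) (hq : q = α * β + z) (hβ : 0 ≤ β)
    (hβα : β ≤ α) (hz : 0 < z) (hD : 4 * q ≤ p ^ 2) (m : ℕ)
    (h : α * seg p q (m + 1) ≤ seg p q (m + 2)) : z * ((m : ℤ) + 1) ^ 2 ≤ β ^ 2 := by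
  have hq0 : 0 < q := by
    have : 0 ≤ α * β := mul_nonneg (hβ.trans hβα) hβ
    linarith
  have hq0r : (0 : ℝ) < q := by exact_mod_cast hq0
  have hDr : (4 : ℝ) * q ≤ (p : ℝ) ^ 2 := by exact_mod_cast hD
  have hp0 : (0 : ℝ) ≤ p := by
    have : 0 ≤ p := by omega
    exact_mod_cast this
  have hzr : (0 : ℝ) < z := by exact_mod_cast hz
  have hαβ : (β : ℝ) ≤ α := by exact_mod_cast hβα
  have hpr : (p : ℝ) = α + β := by exact_mod_cast hp
  have hqr : (q : ℝ) = α * β + z := by exact_mod_cast hq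
  set s : ℝ := Real.sqrt ((p : ℝ) ^ 2 - 4 * q) with hs
  have hs0 : 0 ≤ s := Real.sqrt_nonneg _
  have hs2 : s ^ 2 = (p : ℝ) ^ 2 - 4 * q := Real.sq_sqrt (by linarith)
  have hsp : s ≤ p := by
    apply abs_le_of_sq_le_sq' _ hp0 |>.2
    nlinarith
  set x : ℝ := ((p : ℝ) + s) / 2 with hx
  set y : ℝ := ((p : ℝ) - s) / 2 with hy
  have hx0 : 0 ≤ x := by positivity
  have hy0' : 0 ≤ y := by rw [hy]; linarith
  have hyx : y ≤ x := by rw [hx, hy]; linarith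
  have hxy : (p : ℝ) = x + y := by rw [hx, hy]; ring
  have hxyq : (q : ℝ) = x * y := by
    rw [hx, hy]; nlinarith
  have hy0 : 0 < y := by
    rcases eq_or_lt_of_le hy0' with h1 | h1
    · rw [hxyq, ← h1, mul_zero] at hq0r
      exact absurd hq0r (lt_irrefl _)
    · exact h1
  have hxpos : 0 < x := lt_of_lt_of_le hy0 hyx
  set g : ℝ := Real.sqrt q with hg
  have hg0 : 0 < g := Real.sqrt_pos.mpr hq0r
  have hg2 : g ^ 2 = q := Real.sq_sqrt hq0r.le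
  set H : ℝ := (seg p q (m + 1) : ℝ) with hH
  set H' : ℝ := (seg p q m : ℝ) with hH'
  have hlow : ((m : ℝ) + 1) * g ^ m ≤ H' :=
    real_lower x y g p q hxy hxyq hx0 hy0.le hg0.le (by rw [hg2, hxyq]) m
  have hH'pos : 0 < H' := lt_of_lt_of_le (by positivity) hlow
  have hHH : H = y ^ (m + 1) + x * H' := real_succ x y p q hxy hxyq m
  have hr : (α : ℝ) * H ≤ seg p q (m + 2) := by
    rw [hH]; exact_mod_cast h
  have h1 : (seg p q (m + 2) : ℝ) = y ^ (m + 2) + x * H := real_succ x y p q hxy hxyq (m + 1)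
  set τ : ℝ := (α : ℝ) - x with hτ
  have hA : τ * H ≤ y ^ (m + 2) := by rw [hτ]; linarith
  have hAB : τ * ((α : ℝ) - y) = z := by
    have e : τ * ((α : ℝ) - y) = α ^ 2 - (x + y) * α + x * y := by rw [hτ]; ring
    rw [e, ← hxy, ← hxyq, hpr, hqr]
    ring
  have hBpos : 0 < (α : ℝ) - y := by
    have h3 : y ≤ α := by
      rw [hy]; linarith
    rcases eq_or_lt_of_le h3 with h4 | h4
    · rw [← h4, sub_self, mul_zero] at hAB
      linarith
    · linarith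
  have hτpos : 0 < τ := by
    by_contra hcon
    push Not at hcon
    have : τ * ((α : ℝ) - y) ≤ 0 := mul_nonpos_of_nonpos_of_nonneg hcon hBpos.le
    linarith
  have hβr : (β : ℝ) = y - τ := by rw [hτ]; linarith
  have hzr2 : (z : ℝ) = τ * (τ + (x - y)) := by rw [← hAB, hτ]; ring
  -- `D₁`
  set D₁ : ℝ := y ^ (m + 2) - τ * H with hD₁
  have hD₁0 : 0 ≤ D₁ := by rw [hD₁]; linarith
  have hβy : (β : ℝ) * y ^ (m + 1) = τ * x * H' + D₁ := by
    rw [hβr, hD₁, hHH]; ring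
  have hmul : (x - y) * H = x ^ (m + 2) - y ^ (m + 2) := real_mul x y p q hxy hxyq (m + 1)
  -- (b)
  have hb : ((m : ℝ) + 1) ^ 2 * (x ^ (m + 2) * y ^ m) ≤ (x * H') ^ 2 := by
    have h2 : (((m : ℝ) + 1) * g ^ m) ^ 2 ≤ H' ^ 2 := pow_le_pow_left₀ (by positivity) hlow 2
    have e1 : (((m : ℝ) + 1) * g ^ m) ^ 2 = ((m : ℝ) + 1) ^ 2 * (x ^ m * y ^ m) := by
      rw [mul_pow, ← pow_mul, mul_comm m 2, pow_mul, hg2, hxyq, mul_pow]
    rw [e1] at h2
    calc ((m : ℝ) + 1) ^ 2 * (x ^ (m + 2) * y ^ m)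
        = x ^ 2 * (((m : ℝ) + 1) ^ 2 * (x ^ m * y ^ m)) := by ring
      _ ≤ x ^ 2 * H' ^ 2 := mul_le_mul_of_nonneg_left h2 (by positivity)
      _ = _ := by ring
  -- (c)
  have hc : ((m : ℝ) + 1) ^ 2 * ((x - y) * y ^ m) ≤ 2 * x * H' := by
    have h2 := real_lower2 x y p q hxy hxyq hy0.le hyx m
    have h3 : 0 ≤ 2 * ((m : ℝ) + 1) * y ^ (m + 1) := by positivity
    have h4 : 0 ≤ (x - y) * y ^ m := mul_nonneg (by linarith) (by positivity)
    have h5 : ((m : ℝ) + 1) ^ 2 * ((x - y) * y ^ m) ≤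
        ((m : ℝ) + 1) * (m + 2) * ((x - y) * y ^ m) := by
      apply mul_le_mul_of_nonneg_right _ h4
      nlinarith
    have e : ((m : ℝ) + 1) * (m + 2) * ((x - y) * y ^ m) =
        ((m : ℝ) + 1) * (m + 2) * (x - y) * y ^ m := by ring
    rw [e] at h5
    rw [hH']
    linarith
  have hfin : (z : ℝ) * ((m : ℝ) + 1) ^ 2 * (y ^ (m + 1)) ^ 2 ≤
      (β : ℝ) ^ 2 * (y ^ (m + 1)) ^ 2 := by
    have e1 : (z : ℝ) * ((m : ℝ) + 1) ^ 2 * (y ^ (m + 1)) ^ 2 =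
        τ ^ 2 * (((m : ℝ) + 1) ^ 2 * (x ^ (m + 2) * y ^ m)) +
        τ * D₁ * (((m : ℝ) + 1) ^ 2 * ((x - y) * y ^ m)) := by
      have e2 : y ^ (m + 2) = τ * H + D₁ := by rw [hD₁]; ring
      have e3 : (y ^ (m + 1)) ^ 2 = y ^ m * y ^ (m + 2) := by ring
      have e4 : (x - y) * (y ^ m * y ^ (m + 2)) =
          y ^ m * (τ * ((x - y) * H) + (x - y) * D₁) := by rw [e2]; ring
      rw [hmul] at e4
      rw [hzr2, e3]
      have e5 : τ * (τ + (x - y)) * ((m : ℝ) + 1) ^ 2 * (y ^ m * y ^ (m + 2)) =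
          τ * ((m : ℝ) + 1) ^ 2 * (τ * (y ^ m * y ^ (m + 2)) + (x - y) * (y ^ m * y ^ (m + 2))) := by
        ring
      rw [e5, e4]
      ring
    have e6 : (β : ℝ) ^ 2 * (y ^ (m + 1)) ^ 2 = (τ * x * H' + D₁) ^ 2 := by rw [← hβy]; ring
    rw [e1, e6]
    have h2 : τ ^ 2 * (((m : ℝ) + 1) ^ 2 * (x ^ (m + 2) * y ^ m)) ≤ τ ^ 2 * (x * H') ^ 2 :=
      mul_le_mul_of_nonneg_left hb (by positivity)
    have h3 : τ * D₁ * (((m : ℝ) + 1) ^ 2 * ((x - y) * y ^ m)) ≤ τ * D₁ * (2 * x * H') :=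
      mul_le_mul_of_nonneg_left hc (by positivity)
    nlinarith [sq_nonneg D₁]
  have hfin2 : (z : ℝ) * ((m : ℝ) + 1) ^ 2 ≤ (β : ℝ) ^ 2 :=
    le_of_mul_le_mul_right hfin (by positivity)
  exact_mod_cast hfin2

end Pool.Agent.N998.CT
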