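import Pool.Agent.N998.CT.Quart

set_option autoImplicit false

/-! Nef bundles of rank two: numerical part. -/

namespace Pool.Agent.N998.CT

open Pool.Agent.R920.CH Pool.Agent.R852.BC Finset Filter

/-- negative discriminants: the divisibility conditions -/
lemma disc_div (n : ℕ) (c₁ c₂ : ℤ) (hRR : RiemannRoch n (poly2 c₁ c₂)) (hD : c₁ ^ 2 < 4 * c₂) :
    ∃ m e : ℕ, (m : ℤ) = 4 * c₂ - c₁ ^ 2 ∧ e ≤ 1 ∧ 0 < m ∧ (m + e) % 4 = 0 ∧
      ∀ h : ℕ, 1 ≤ h → 2 * h ≤ n → md h ∣ pr m e h := by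
  obtain ⟨m, hm⟩ : ∃ m : ℕ, (m : ℤ) = 4 * c₂ - c₁ ^ 2 := ⟨(4 * c₂ - c₁ ^ 2).toNat, by
    rw [Int.toNat_of_nonneg (by linarith)]⟩
  obtain ⟨e, he⟩ : ∃ e : ℕ, (e : ℤ) = c₁ % 2 := ⟨(c₁ % 2).toNat, by
    rw [Int.toNat_of_nonneg (by omega)]⟩
  refine ⟨m, e, hm, by omega, by zify; linarith, ?_, ?_⟩
  · have h1 : c₁ = 2 * (c₁ / 2) + e := by omega
    have h2 : (e : ℤ) = 0 ∨ (e : ℤ) = 1 := by omega
    have h3 : ((m : ℤ) + e) % 4 = 0 := by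
      rw [hm, h1]
      rcases h2 with h2 | h2
      · rw [h2]
        have : 4 * c₂ - (2 * (c₁ / 2) + 0) ^ 2 + 0 = 4 * (c₂ - (c₁ / 2) ^ 2) := by ring
        rw [this]; exact Int.mul_emod_right _ _
      · rw [h2]
        have : 4 * c₂ - (2 * (c₁ / 2) + 1) ^ 2 + 1 = 4 * (c₂ - (c₁ / 2) ^ 2 - c₁ / 2) := by ring
        rw [this]; exact Int.mul_emod_right _ _
    omega
  · intro h h1 h2
    have h3 := divis hRR h1 h2
    have e3 : ∀ j ∈ range h, (c₁ ^ 2 - 4 * c₂ - (2 * (j : ℤ) + c₁ % 2) ^ 2) =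
        -((m : ℤ) + (2 * j + e) ^ 2) := by
      intro j _
      rw [he, hm]; ring
    rw [prod_congr rfl e3, prod_neg] at h3
    have h4 : (2 ^ (2 * h - 1) * (2 * h).factorial : ℤ) ∣
        ∏ j ∈ range h, ((m : ℤ) + (2 * j + e) ^ 2) := by
      rcases neg_one_pow_eq_or ℤ (range h).card with h5 | h5
      · rw [h5, one_mul] at h3; exact h3
      · rw [h5, neg_one_mul, dvd_neg] at h3; exact h3
    unfold md pr
    exact_mod_cast h4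

/-- the explicit bounds for `n ≥ 12`, negative discriminants -/
theorem nef_neg (n : ℕ) (hn : 12 ≤ n) (c₁ c₂ : ℤ) (hRR : RiemannRoch n (poly2 c₁ c₂))
    (hseg : ∀ j : ℕ, j ≤ n → 0 ≤ seg c₁ c₂ j) (hD : c₁ ^ 2 < 4 * c₂) :
    0 < c₁ ∧ 4 * ((n : ℤ) ^ 2 * (n - 3)) < c₁ ^ 2 ∧ (n : ℤ) ^ 2 < 12 * c₁ := by
  obtain ⟨hp, hs⟩ := sector11 c₁ c₂ hD (n + 1) (by omega) (fun j hj => hseg j (by omega))
  obtain ⟨m, e, hm, he, hm0, hme, hdiv⟩ := disc_div n c₁ c₂ hRR hD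
  rw [← hm] at hs
  push_cast at hs
  have hbig : 196 * (n - 1) * (n - 2) ^ 2 < m * (4 * (n - 1) ^ 2 + 49) := by
    by_contra hcon
    push Not at hcon
    exact no_small n m e hn he hm0 hme hcon hdiv
  have h1 : 4 * ((n : ℤ) ^ 2 * (n - 3)) < c₁ ^ 2 := by
    obtain ⟨k, rfl⟩ : ∃ k, n = k + 12 := ⟨n - 12, by omega⟩
    have e1 : k + 12 - 1 = k + 11 := by omega
    have e2 : k + 12 - 2 = k + 10 := by omega
    rw [e1, e2] at hbig
    have hbig' : 196 * ((k : ℤ) + 11) * (k + 10) ^ 2 < m * (4 * (k + 11) ^ 2 + 49) := by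
      exact_mod_cast hbig
    push_cast at hs ⊢
    by_contra hcon
    push Not at hcon
    have g1 : 4 * ((k : ℤ) + 12 + 1) ^ 2 * m ≤ 49 * (4 * (((k : ℤ) + 12) ^ 2 * (k + 12 - 3))) :=
      hs.trans (by linarith)
    have g2 : (4 * ((k : ℤ) + 12 + 1) ^ 2 * m) * (4 * (k + 11) ^ 2 + 49) ≤
        (49 * (4 * (((k : ℤ) + 12) ^ 2 * (k + 12 - 3)))) * (4 * (k + 11) ^ 2 + 49) :=
      mul_le_mul_of_nonneg_right g1 (by positivity)
    have g3 : (4 * ((k : ℤ) + 12 + 1) ^ 2) * (196 * ((k : ℤ) + 11) * (k + 10) ^ 2) <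
        (4 * ((k : ℤ) + 12 + 1) ^ 2) * (m * (4 * (k + 11) ^ 2 + 49)) :=
      mul_lt_mul_of_pos_left hbig' (by positivity)
    have g4 : (49 * (4 * (((k : ℤ) + 12) ^ 2 * (k + 12 - 3)))) * (4 * (k + 11) ^ 2 + 49) ≤
        (4 * ((k : ℤ) + 12 + 1) ^ 2) * (196 * ((k : ℤ) + 11) * (k + 10) ^ 2) := by
      have : 0 ≤ (k : ℤ) := by positivity
      have e : (4 * ((k : ℤ) + 12 + 1) ^ 2) * (196 * ((k : ℤ) + 11) * (k + 10) ^ 2) -
          (49 * (4 * (((k : ℤ) + 12) ^ 2 * (k + 12 - 3)))) * (4 * (k + 11) ^ 2 + 49) =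
          196 * (8 * (k : ℤ) ^ 4 + 363 * k ^ 3 + 5825 * k ^ 2 + 37380 * k + 52832) +
          196 * (8 * (k : ℤ) ^ 4 + 363 * k ^ 3 + 5825 * k ^ 2 + 37380 * k + 52832) * 0 +
          ((4 * ((k : ℤ) + 12 + 1) ^ 2) * (196 * ((k : ℤ) + 11) * (k + 10) ^ 2) -
          (49 * (4 * (((k : ℤ) + 12) ^ 2 * (k + 12 - 3)))) * (4 * (k + 11) ^ 2 + 49) -
          196 * (8 * (k : ℤ) ^ 4 + 363 * k ^ 3 + 5825 * k ^ 2 + 37380 * k + 52832)) := by ring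
      nlinarith [pow_nonneg this 2, pow_nonneg this 3, pow_nonneg this 4]
    have g5 : (4 * ((k : ℤ) + 12 + 1) ^ 2 * m) * (4 * (k + 11) ^ 2 + 49) =
        (4 * ((k : ℤ) + 12 + 1) ^ 2) * (m * (4 * (k + 11) ^ 2 + 49)) := by ring
    linarith
  refine ⟨hp, h1, ?_⟩
  have hnr : (12 : ℤ) ≤ n := by exact_mod_cast hn
  by_contra hcon
  push Not at hcon
  rcases le_or_gt n 494 with hN1 | hN1
  · have hnr2 : (n : ℤ) ≤ 494 := by exact_mod_cast hN1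
    set N : ℤ := (n : ℤ) with hN
    have h2 : (12 * c₁) ^ 2 ≤ (N ^ 2) ^ 2 := pow_le_pow_left₀ (by linarith) hcon 2
    have h3 : N ^ 2 ≤ 576 * (N - 3) := by nlinarith
    have h4 : N ^ 2 * N ^ 2 ≤ N ^ 2 * (576 * (N - 3)) :=
      mul_le_mul_of_nonneg_left h3 (by positivity)
    nlinarith
  · set h : ℕ := n / 2 with hh
    set J : ℕ := (h - 1) / 3 with hJ
    have hmJ : 4 * J ^ 2 < m := by
      by_contra hcon
      push Not at hcon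
      have h5 := pr_lt J m e h he hcon (by omega) (by omega)
      have h6 := hdiv h (by omega) (by omega)
      exact absurd (Nat.le_of_dvd (pr_pos m e h hm0) h6) (not_le.mpr h5)
    have hJN : (n : ℤ) - 7 ≤ 6 * J := by omega
    have hNr : (495 : ℤ) ≤ n := by exact_mod_cast hN1
    have hmJ' : 4 * (J : ℤ) ^ 2 < m := by exact_mod_cast hmJ
    set N : ℤ := (n : ℤ) with hN
    have h1 : (N - 7) ^ 2 ≤ 36 * (J : ℤ) ^ 2 := by nlinarith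
    have h2 : (N - 7) ^ 2 ≤ 9 * m := by linarith
    have h3 : (N + 1) ^ 2 * (N - 7) ^ 2 ≤ (N + 1) ^ 2 * (9 * m) :=
      mul_le_mul_of_nonneg_left h2 (by positivity)
    have h4 : (2 * ((N + 1) * (N - 7))) ^ 2 ≤ (21 * c₁) ^ 2 := by nlinarith
    have h5 : 2 * ((N + 1) * (N - 7)) ≤ 21 * c₁ :=
      (pow_le_pow_iff_left₀ (by nlinarith) (by linarith) two_ne_zero).mp h4
    nlinarith

end Pool.Agent.N998.CT
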