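import Pool.Agent.N998.CT.HypFin
import Pool.Agent.N998.CT.Nef

set_option autoImplicit false

/-! Hypersurfaces and the index: explicit bounds for `N ≥ 12`. -/

namespace Pool.Agent.N998.CT

open Pool.Agent.R920.CH Pool.Agent.R852.BC Finset Filter

lemma quart_small (N : ℤ) (h12 : 12 ≤ N) (h494 : N ≤ 494) :
    N ^ 2 * N ^ 2 ≤ 576 * ((N - 2) ^ 2 * (N - 3)) := by
  rcases le_or_gt N 284 with h | h
  · have h1 : N ^ 2 ≤ 2 * (N - 2) ^ 2 := by nlinarith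
    have h2 : N ^ 2 ≤ 288 * (N - 3) := by nlinarith
    have h3 : N ^ 2 * N ^ 2 ≤ (2 * (N - 2) ^ 2) * (288 * (N - 3)) :=
      mul_le_mul h1 h2 (by positivity) (by positivity)
    linarith
  · have h1 : 100 * N ^ 2 ≤ 102 * (N - 2) ^ 2 := by nlinarith
    have h2 : N ^ 2 ≤ 564 * (N - 3) := by nlinarith
    have h3 : (100 * N ^ 2) * N ^ 2 ≤ (102 * (N - 2) ^ 2) * (564 * (N - 3)) :=
      mul_le_mul h1 h2 (by positivity) (by positivity)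
    have h4 : 0 ≤ (N - 2) ^ 2 * (N - 3) := mul_nonneg (by positivity) (by linarith)
    nlinarith

/-- the index, negative discriminants -/
theorem index_neg (N : ℕ) (hN : 12 ≤ N) (c₁ d : ℤ) (hRR : RiemannRoch N (poly2 c₁ d))
    (hseg : ∀ j : ℕ, j + 2 ≤ N → 0 ≤ seg (c₁ - 2) (d - c₁ + 1) j) (hD : c₁ ^ 2 < 4 * d) :
    0 < c₁ - 2 ∧ 4 * (((N : ℤ) - 2) ^ 2 * (N - 3)) < (c₁ - 2) ^ 2 ∧
      (N : ℤ) ^ 2 < 12 * (c₁ - 2) := by
  have hD' : (c₁ - 2) ^ 2 < 4 * (d - c₁ + 1) := by linarith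
  obtain ⟨hp, hs⟩ := sector11 (c₁ - 2) (d - c₁ + 1) hD' (N - 1) (by omega)
    (fun j hj => hseg j (by omega))
  have e2 : 4 * (d - c₁ + 1) - (c₁ - 2) ^ 2 = 4 * d - c₁ ^ 2 := by ring
  rw [e2] at hs
  obtain ⟨m, e, hm, he, hm0, hme, hdiv⟩ := disc_div N c₁ d hRR hD
  rw [← hm] at hs
  have hbig : 196 * (N - 1) * (N - 2) ^ 2 < m * (4 * (N - 1) ^ 2 + 49) := by
    by_contra hcon
    push Not at hcon
    exact no_small N m e hN he hm0 hme hcon hdiv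
  set p : ℤ := c₁ - 2 with hpdef
  obtain ⟨n, rfl⟩ : ∃ n, N = n + 2 := ⟨N - 2, by omega⟩
  have e1 : n + 2 - 1 = n + 1 := by omega
  have e3 : n + 2 - 2 = n := by omega
  rw [e1, e3] at hbig
  rw [e1] at hs
  push_cast at hs
  have hbig' : 196 * ((n : ℤ) + 1) * n ^ 2 < m * (4 * (n + 1) ^ 2 + 49) := by exact_mod_cast hbig
  have hn10 : (10 : ℤ) ≤ n := by exact_mod_cast (by omega : 10 ≤ n)
  have h1 : 4 * ((n : ℤ) ^ 2 * (n - 1)) < p ^ 2 := by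
    by_contra hcon
    push Not at hcon
    have g1 : 4 * ((n : ℤ) + 1) ^ 2 * m ≤ 49 * (4 * ((n : ℤ) ^ 2 * (n - 1))) :=
      hs.trans (by linarith)
    have g2 : (4 * ((n : ℤ) + 1) ^ 2 * m) * (4 * (n + 1) ^ 2 + 49) ≤
        (49 * (4 * ((n : ℤ) ^ 2 * (n - 1)))) * (4 * (n + 1) ^ 2 + 49) :=
      mul_le_mul_of_nonneg_right g1 (by positivity)
    have g3 : (4 * ((n : ℤ) + 1) ^ 2) * (196 * ((n : ℤ) + 1) * n ^ 2) <
        (4 * ((n : ℤ) + 1) ^ 2) * (m * (4 * (n + 1) ^ 2 + 49)) :=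
      mul_lt_mul_of_pos_left hbig' (by positivity)
    have g5 : (4 * ((n : ℤ) + 1) ^ 2 * m) * (4 * (n + 1) ^ 2 + 49) =
        (4 * ((n : ℤ) + 1) ^ 2) * (m * (4 * (n + 1) ^ 2 + 49)) := by ring
    have g4 : (49 * (4 * ((n : ℤ) ^ 2 * (n - 1)))) * (4 * (n + 1) ^ 2 + 49) ≤
        (4 * ((n : ℤ) + 1) ^ 2) * (196 * ((n : ℤ) + 1) * n ^ 2) := by
      have e4 : (4 * ((n : ℤ) + 1) ^ 2) * (196 * ((n : ℤ) + 1) * n ^ 2) -
          (49 * (4 * ((n : ℤ) ^ 2 * (n - 1)))) * (4 * (n + 1) ^ 2 + 49) =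
          196 * n ^ 2 * (8 * (n + 1) ^ 2 - 49 * (n - 1)) := by ring
      have e5 : 0 ≤ 8 * ((n : ℤ) + 1) ^ 2 - 49 * (n - 1) := by nlinarith
      have e6 : 0 ≤ 196 * (n : ℤ) ^ 2 * (8 * (n + 1) ^ 2 - 49 * (n - 1)) :=
        mul_nonneg (by positivity) e5
      linarith
    linarith
  have ecast : ((n + 2 : ℕ) : ℤ) = n + 2 := by push_cast; ring
  rw [ecast]
  have h1' : 4 * (((n : ℤ) + 2 - 2) ^ 2 * (n + 2 - 3)) < p ^ 2 := by
    have e4 : 4 * (((n : ℤ) + 2 - 2) ^ 2 * (n + 2 - 3)) = 4 * ((n : ℤ) ^ 2 * (n - 1)) := by ring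
    rw [e4]; exact h1
  refine ⟨hp, h1', ?_⟩
  by_contra hcon
  push Not at hcon
  rcases le_or_gt (n + 2) 494 with hN1 | hN1
  · have h494 : (n : ℤ) + 2 ≤ 494 := by exact_mod_cast hN1
    have h2 := quart_small ((n : ℤ) + 2) (by linarith) h494
    have h3 : (12 * p) ^ 2 ≤ (((n : ℤ) + 2) ^ 2) ^ 2 := pow_le_pow_left₀ (by linarith) hcon 2
    nlinarith
  · set h : ℕ := (n + 2) / 2 with hh
    set J : ℕ := (h - 1) / 3 with hJ
    have hmJ : 4 * J ^ 2 < m := by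
      by_contra hcon
      push Not at hcon
      have h5 := pr_lt J m e h he hcon (by omega) (by omega)
      have h6 := hdiv h (by omega) (by omega)
      exact absurd (Nat.le_of_dvd (pr_pos m e h hm0) h6) (not_le.mpr h5)
    have hJN : (n : ℤ) - 5 ≤ 6 * J := by omega
    have hNr : (493 : ℤ) ≤ n := by exact_mod_cast (by omega : 493 ≤ n)
    have hmJ' : 4 * (J : ℤ) ^ 2 < m := by exact_mod_cast hmJ
    set M : ℤ := (n : ℤ) with hM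
    have h1 : (M - 5) ^ 2 ≤ 36 * (J : ℤ) ^ 2 := by nlinarith
    have h2 : (M - 5) ^ 2 ≤ 9 * m := by linarith
    have h3 : (M + 1) ^ 2 * (M - 5) ^ 2 ≤ (M + 1) ^ 2 * (9 * m) :=
      mul_le_mul_of_nonneg_left h2 (by positivity)
    have h4 : (2 * ((M + 1) * (M - 5))) ^ 2 ≤ (21 * p) ^ 2 := by nlinarith
    have h5 : 2 * ((M + 1) * (M - 5)) ≤ 21 * p :=
      (pow_le_pow_iff_left₀ (by nlinarith) (by linarith) two_ne_zero).mp h4
    nlinarith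

lemma exp_ineq (N : ℕ) (hN : 12 ≤ N) :
    7 * ((N : ℤ) - 3) ^ 2 * 3 ^ (N - 4) ≤ 10 * 5 ^ (N - 4) := by
  induction N, hN using Nat.le_induction with
  | base => norm_num
  | succ n hn ih =>
    have e : n + 1 - 4 = (n - 4) + 1 := by omega
    rw [e, pow_succ (3 : ℤ), pow_succ (5 : ℤ)]
    push_cast
    have hn12 : (12 : ℤ) ≤ n := by exact_mod_cast hn
    have h1 : 3 * ((n : ℤ) + 1 - 3) ^ 2 ≤ 5 * ((n : ℤ) - 3) ^ 2 := by nlinarith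
    have h2 : (0 : ℤ) < 3 ^ (n - 4) := by positivity
    have h3 : 3 * ((n : ℤ) + 1 - 3) ^ 2 * 3 ^ (n - 4) ≤ 5 * ((n : ℤ) - 3) ^ 2 * 3 ^ (n - 4) :=
      mul_le_mul_of_nonneg_right h1 h2.le
    linarith

/-- from `z α^(N-4) ≤ β^(N-2)` and `3 α > 5 β` -/
lemma beta_large (N : ℕ) (hN : 12 ≤ N) (α β z : ℤ) (hβ : 0 ≤ β) (hαβ : 5 * β < 3 * α)
    (hz : (N : ℤ) ^ 2 - 3 ≤ 4 * z) (h : z * α ^ (N - 4) ≤ β ^ (N - 2)) :
    7 * (((N : ℤ) - 3) ^ 2 * ((N : ℤ) ^ 2 - 3)) ≤ 40 * β ^ 2 := by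
  have hN12 : (12 : ℤ) ≤ N := by exact_mod_cast hN
  have hα : 0 < α := by linarith
  have hz0 : 0 < z := by nlinarith
  have hβ0 : 0 < β := by
    rcases eq_or_lt_of_le hβ with h0 | h0
    · rw [← h0, zero_pow (by omega)] at h
      have : 0 < z * α ^ (N - 4) := by positivity
      linarith
    · exact h0
  have e : N - 2 = (N - 4) + 2 := by omega
  rw [e, pow_add] at h
  have h1 : (5 * β) ^ (N - 4) ≤ (3 * α) ^ (N - 4) := pow_le_pow_left₀ (by positivity) hαβ.le _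
  rw [mul_pow, mul_pow] at h1
  have hb : 0 < β ^ (N - 4) := by positivity
  have h2 : (z * 5 ^ (N - 4)) * β ^ (N - 4) ≤ (3 ^ (N - 4) * β ^ 2) * β ^ (N - 4) := by
    calc (z * 5 ^ (N - 4)) * β ^ (N - 4) = z * (5 ^ (N - 4) * β ^ (N - 4)) := by ring
      _ ≤ z * (3 ^ (N - 4) * α ^ (N - 4)) := mul_le_mul_of_nonneg_left h1 hz0.le
      _ = 3 ^ (N - 4) * (z * α ^ (N - 4)) := by ring
      _ ≤ 3 ^ (N - 4) * (β ^ (N - 4) * β ^ 2) := mul_le_mul_of_nonneg_left h (by positivity)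
      _ = _ := by ring
  have h3 : z * 5 ^ (N - 4) ≤ 3 ^ (N - 4) * β ^ 2 := le_of_mul_le_mul_right h2 hb
  have h4 := exp_ineq N hN
  have h5 : z * (7 * ((N : ℤ) - 3) ^ 2 * 3 ^ (N - 4)) ≤ z * (10 * 5 ^ (N - 4)) :=
    mul_le_mul_of_nonneg_left h4 hz0.le
  have h6 : (7 * (((N : ℤ) - 3) ^ 2 * (4 * z))) * 3 ^ (N - 4) ≤ (40 * β ^ 2) * 3 ^ (N - 4) := by
    linarith
  have h7 : 7 * (((N : ℤ) - 3) ^ 2 * (4 * z)) ≤ 40 * β ^ 2 :=
    le_of_mul_le_mul_right h6 (by positivity)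
  have h8 : ((N : ℤ) - 3) ^ 2 * ((N : ℤ) ^ 2 - 3) ≤ ((N : ℤ) - 3) ^ 2 * (4 * z) :=
    mul_le_mul_of_nonneg_left hz (by positivity)
  linarith

/-- the hypersurfaces, negative discriminants, the unstable case -/
theorem hyp_neg (N : ℕ) (hN : 12 ≤ N) (c₁ d a b : ℤ) (hb : 0 < b) (hba : b ≤ a)
    (hab : a + b = c₁) (hz : (N : ℤ) ^ 2 / 4 ≤ d - a * b)
    (h1 : 4 * (((N : ℤ) - 2) ^ 2 * (N - 3)) < (c₁ - 2) ^ 2) (h2 : (N : ℤ) ^ 2 < 12 * (c₁ - 2))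
    (h : ∀ j : ℕ, j + 3 ≤ N →
      (a - 1) * seg (c₁ - 2) (d - c₁ + 1) j ≤ seg (c₁ - 2) (d - c₁ + 1) (j + 1)) :
    9 * (((N : ℤ) - 2) ^ 2 * (N - 3)) < 16 * (b - 1) ^ 2 ∧ (N : ℤ) ^ 2 < 32 * (b - 1) := by
  have hN12 : (12 : ℤ) ≤ N := by exact_mod_cast hN
  have hp : c₁ - 2 = (a - 1) + (b - 1) := by omega
  have hq : d - c₁ + 1 = (a - 1) * (b - 1) + (d - a * b) := by rw [← hab]; ring
  have hz' : (N : ℤ) ^ 2 - 3 ≤ 4 * (d - a * b) := by omega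
  have hz0 : 0 ≤ d - a * b := by nlinarith
  have h3 := ineq (a - 1) (b - 1) (d - a * b) _ _ hp hq (by omega) (by omega) hz0 (N - 2)
    (fun j hj => h j (by omega)) (N - 4) (by omega)
  have e : N - 4 + 2 = N - 2 := by omega
  rw [e] at h3
  have hp0 : 0 < c₁ - 2 := by nlinarith
  have key : 5 * (b - 1) < 3 * (a - 1) →
      7 * (((N : ℤ) - 3) ^ 2 * ((N : ℤ) ^ 2 - 3)) ≤ 40 * (b - 1) ^ 2 :=
    fun hh => beta_large N hN (a - 1) (b - 1) (d - a * b) (by omega) hh hz' h3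
  have hlow : 7 * (((N : ℤ) - 3) ^ 2 * ((N : ℤ) ^ 2 - 3)) ≤ 40 * (b - 1) ^ 2 →
      9 * (((N : ℤ) - 2) ^ 2 * (N - 3)) < 16 * (b - 1) ^ 2 ∧
        (N : ℤ) ^ 2 * (N : ℤ) ^ 2 < 1024 * (b - 1) ^ 2 := by
    intro hh
    set n : ℤ := (N : ℤ) with hn
    constructor
    · have g1 : 9 * (n - 2) ^ 2 < 2 * ((n - 3) * (n ^ 2 - 3)) := by nlinarith
      have g2 : (n - 3) * (9 * (n - 2) ^ 2) < (n - 3) * (2 * ((n - 3) * (n ^ 2 - 3))) :=
        mul_lt_mul_of_pos_left g1 (by linarith)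
      nlinarith
    · have g1 : n ^ 2 ≤ 2 * (n - 3) ^ 2 := by nlinarith
      have g2 : n ^ 2 ≤ 2 * (n ^ 2 - 3) := by nlinarith
      have g3 : n ^ 2 * n ^ 2 ≤ (2 * (n - 3) ^ 2) * (2 * (n ^ 2 - 3)) :=
        mul_le_mul g1 g2 (by positivity) (by positivity)
      have g4 : 0 < (n - 3) ^ 2 * (n ^ 2 - 3) := mul_pos (by nlinarith) (by nlinarith)
      nlinarith
  constructor
  · by_contra hcon
    push Not at hcon
    have g1 : (8 * (b - 1)) ^ 2 < (3 * (c₁ - 2)) ^ 2 := by nlinarith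
    have g2 : 8 * (b - 1) < 3 * (c₁ - 2) := lt_of_pow_lt_pow_left₀ 2 (by linarith) g1
    have g3 := hlow (key (by linarith))
    linarith [g3.1]
  · by_contra hcon
    push Not at hcon
    have g3 := hlow (key (by linarith))
    have g4 : (32 * (b - 1)) ^ 2 ≤ ((N : ℤ) ^ 2) ^ 2 := pow_le_pow_left₀ (by linarith) hcon 2
    nlinarith [g3.2]

end Pool.Agent.N998.CT
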