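import Pool.Agent.N998.CT.Seg

set_option autoImplicit false

/-! Sequences `h_{j+2} = p h_{j+1} - q h_j` with `h_{j+1} ≥ α h_j`. -/

namespace Pool.Agent.N998.CT

lemma seg_succ (x y p q : ℤ) (hp : p = x + y) (hq : q = x * y) :
    ∀ j : ℕ, seg p q (j + 1) = y ^ (j + 1) + x * seg p q j
  | 0 => by simp only [seg]; rw [hp]; ring
  | j + 1 => by
      have h := seg_succ x y p q hp hq j
      have e : seg p q (j + 1 + 1) = p * seg p q (j + 1) - q * seg p q j := rfl
      rw [e, hp, hq]
      rw [hp, hq] at h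
      linear_combination y * h

lemma seg_lower (x y p q : ℤ) (hp : p = x + y) (hq : q = x * y) (hy : 0 ≤ y) (hxy : y ≤ x) :
    ∀ j : ℕ, ((j : ℤ) + 1) * y ^ j ≤ seg p q j
  | 0 => by simp [seg]
  | j + 1 => by
      have h := seg_lower x y p q hp hq hy hxy j
      rw [seg_succ x y p q hp hq j]
      have h1 : 0 ≤ ((j : ℤ) + 1) * y ^ j := by positivity
      have h2 : y * (((j : ℤ) + 1) * y ^ j) ≤ x * seg p q j :=
        mul_le_mul hxy h h1 (hy.trans hxy)
      push_cast
      rw [pow_succ]
      nlinarith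

lemma seg_mul (x y p q : ℤ) (hp : p = x + y) (hq : q = x * y) :
    ∀ j : ℕ, (x - y) * seg p q j = x ^ (j + 1) - y ^ (j + 1)
  | 0 => by simp [seg]
  | j + 1 => by
      have h := seg_mul x y p q hp hq j
      rw [seg_succ x y p q hp hq j]
      linear_combination x * h

/-- **Integral roots.** -/
theorem integral (x y p q α : ℤ) (hp : p = x + y) (hq : q = x * y) (hxy : y ≤ x) (hα : x < α)
    (n : ℕ) (h : ∀ j < n + 1, α * seg p q j ≤ seg p q (j + 1)) :
    (n : ℤ) + 1 ≤ y ∧ x ^ (n + 1) ≤ (1 + (x - y)) * y ^ (n + 1) := by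
  have h0 := h 0 (by omega)
  have hy1 : 1 ≤ y := by
    simp only [seg] at h0
    linarith
  have hn := h n (by omega)
  rw [seg_succ x y p q hp hq n] at hn
  have hpos : 0 ≤ seg p q n := le_trans (by positivity)
    (seg_lower x y p q hp hq (by omega) hxy n)
  have h1 : seg p q n ≤ y ^ (n + 1) := by nlinarith
  constructor
  · have h2 := (seg_lower x y p q hp hq (by omega) hxy n).trans h1
    rw [pow_succ, mul_comm] at h2
    exact le_of_mul_le_mul_left h2 (by positivity)
  · have h3 := seg_mul x y p q hp hq n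
    have h4 : (x - y) * seg p q n ≤ (x - y) * y ^ (n + 1) :=
      mul_le_mul_of_nonneg_left h1 (by omega)
    linarith

/-- The numbers `h_j - α h_{j-1}`. -/
def vv (p q α : ℤ) : ℕ → ℤ
  | 0 => 1
  | j + 1 => seg p q (j + 1) - α * seg p q j

lemma vv_rec (p q α : ℤ) : ∀ j : ℕ, vv p q α (j + 2) = p * vv p q α (j + 1) - q * vv p q α j
  | 0 => by simp only [vv, seg]; ring
  | j + 1 => by
      simp only [vv]
      have e1 : seg p q (j + 3) = p * seg p q (j + 2) - q * seg p q (j + 1) := rfl
      have e2 : seg p q (j + 2) = p * seg p q (j + 1) - q * seg p q j := rfl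
      have e3 : seg p q (j + 1 + 1) = seg p q (j + 2) := rfl
      have e4 : seg p q (j + 1 + 2) = seg p q (j + 3) := rfl
      rw [e4, e3, e1]
      linear_combination (-α) * e2

/-- **The unstable case.** -/
theorem ineq (α β z p q : ℤ) (hp : p = α + β) (hq : q = α * β + z) (hβ : 0 ≤ β) (hβα : β ≤ α)
    (hz : 0 ≤ z) (n : ℕ) (h : ∀ j < n, α * seg p q j ≤ seg p q (j + 1)) :
    ∀ j : ℕ, j + 2 ≤ n → z * α ^ j ≤ β ^ (j + 2) := by
  have hv : ∀ j ≤ n, 0 ≤ vv p q α j := by
    intro j hj
    cases j with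
    | zero => simp [vv]
    | succ j =>
      have := h j (by omega)
      simp only [vv]
      linarith
  have hw1 : vv p q α 1 - β * vv p q α 0 = 0 := by
    simp only [vv, seg]; rw [hp]; ring
  have hw : ∀ j : ℕ, vv p q α (j + 2) - β * vv p q α (j + 1) =
      α * (vv p q α (j + 1) - β * vv p q α j) - z * vv p q α j := by
    intro j
    rw [vv_rec, hp, hq]
    ring
  have hα : 0 ≤ α := hβ.trans hβα
  have hwle : ∀ j : ℕ, j + 2 ≤ n → vv p q α (j + 2) - β * vv p q α (j + 1) ≤ -(z * α ^ j) := by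
    intro j
    induction j with
    | zero =>
      intro _
      rw [hw 0, zero_add, hw1]
      simp [vv]
    | succ j ih =>
      intro hj
      have h1 := ih (by omega)
      have e : j + 1 + 2 = (j + 1) + 2 := rfl
      rw [hw (j + 1)]
      have h2 := hv (j + 1) (by omega)
      have h3 : 0 ≤ z * vv p q α (j + 1) := mul_nonneg hz h2
      have h4 : α * (vv p q α (j + 1 + 1) - β * vv p q α (j + 1)) ≤ α * (-(z * α ^ j)) :=
        mul_le_mul_of_nonneg_left h1 hα
      rw [pow_succ]
      linarith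
  have hw0 : ∀ j : ℕ, j + 1 ≤ n → vv p q α (j + 1) - β * vv p q α j ≤ 0 := by
    intro j hj
    cases j with
    | zero => exact hw1.le
    | succ j =>
      refine (hwle j (by omega)).trans ?_
      have : 0 ≤ z * α ^ j := by positivity
      linarith
  have hvle : ∀ j : ℕ, j ≤ n → vv p q α j ≤ β ^ j := by
    intro j
    induction j with
    | zero => intro _; simp [vv]
    | succ j ih =>
      intro hj
      have h1 := hw0 j (by omega)
      have h2 : β * vv p q α j ≤ β * β ^ j := mul_le_mul_of_nonneg_left (ih (by omega)) hβ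
      rw [pow_succ]
      linarith
  intro j hj
  have h1 := hwle j hj
  have h2 := hv (j + 2) (by omega)
  have h3 : β * vv p q α (j + 1) ≤ β * β ^ (j + 1) :=
    mul_le_mul_of_nonneg_left (hvle (j + 1) (by omega)) hβ
  have e : β ^ (j + 2) = β * β ^ (j + 1) := by ring
  rw [e]
  linarith

end Pool.Agent.N998.CT
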