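import Pool.Agent.N998.CT.Hyp
import Pool.Agent.N998.CT.Pos

set_option autoImplicit false

/-! The degree of the hypersurfaces and the index. -/

namespace Pool.Agent.N998.CT

open Filter Pool.Agent.R920.CH Pool.Agent.R852.BC

/-- The case of real roots. -/
theorem hyp_real (N : ℕ) (hN : 4 ≤ N) (c₁ d a b w : ℤ) (hb : 0 < b) (hba : b ≤ a)
    (hab : a + b = c₁) (hw0 : 0 < w) (hw : w ≤ d - a * b) (hD : 4 * d ≤ c₁ ^ 2)
    (h : ∀ j : ℕ, j + 3 ≤ N →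
      (a - 1) * seg (c₁ - 2) (d - c₁ + 1) j ≤ seg (c₁ - 2) (d - c₁ + 1) (j + 1)) :
    ((N : ℤ) - 3) ^ 2 * w ≤ (b - 1) ^ 2 ∧ 4 * (((N : ℤ) - 2) ^ 2 * w) ≤ (c₁ - 2) ^ 2 := by
  obtain ⟨m, rfl⟩ : ∃ m, N = m + 4 := ⟨N - 4, by omega⟩
  have hp : c₁ - 2 = (a - 1) + (b - 1) := by omega
  have hq : d - c₁ + 1 = (a - 1) * (b - 1) + (d - a * b) := by rw [← hab]; ring
  have hD' : 4 * (d - c₁ + 1) ≤ (c₁ - 2) ^ 2 := by linarith
  have h1 := hyp_ineq (a - 1) (b - 1) (d - a * b) _ _ hp hq (by omega) (by omega) (by omega) hD' m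
    (h (m + 1) (by omega))
  have h2 := main_ineq (a - 1) (b - 1) (d - a * b) _ _ hp hq (by omega) (by omega) (by omega) hD'
    (m + 1) (h (m + 1) (by omega))
  push_cast at h2 ⊢
  constructor
  · have e : ((m : ℤ) + 4 - 3) ^ 2 * w ≤ ((m : ℤ) + 1) ^ 2 * (d - a * b) := by
      rw [show (m : ℤ) + 4 - 3 = m + 1 by ring]
      exact mul_le_mul_of_nonneg_left hw (by positivity)
    linarith
  · have e : ((m : ℤ) + 4 - 2) ^ 2 * w ≤ ((m : ℤ) + 1 + 1) ^ 2 * (d - a * b) := by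
      rw [show (m : ℤ) + 4 - 2 = m + 1 + 1 by ring]
      exact mul_le_mul_of_nonneg_left hw (by positivity)
    linarith

/-- The case of roots which are not real. -/
theorem hyp_large (N : ℕ) (hN : 9 ≤ N) (c₁ d a b : ℤ) (hb : 0 < b) (hba : b ≤ a)
    (hab : a + b = c₁) (hz : 0 < d - a * b) (hc : (N : ℤ) ^ 4 ≤ c₁)
    (h : ∀ j : ℕ, j + 3 ≤ N →
      (a - 1) * seg (c₁ - 2) (d - c₁ + 1) j ≤ seg (c₁ - 2) (d - c₁ + 1) (j + 1)) :
    (N : ℤ) ^ 2 ≤ b - 1 := by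
  have hN9 : (9 : ℤ) ≤ N := by exact_mod_cast hN
  have hp : c₁ - 2 = (a - 1) + (b - 1) := by omega
  have hq : d - c₁ + 1 = (a - 1) * (b - 1) + (d - a * b) := by rw [← hab]; ring
  have h1 := ineq (a - 1) (b - 1) (d - a * b) _ _ hp hq (by omega) (by omega) hz.le (N - 2)
    (fun j hj => h j (by omega)) (N - 4) (by omega)
  by_contra hcon
  push Not at hcon
  have hα : (N : ℤ) ^ 3 ≤ a - 1 := by
    have e : (N : ℤ) ^ 4 = N * (N : ℤ) ^ 3 := by ring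
    have h3 : 9 * (N : ℤ) ^ 3 ≤ N * (N : ℤ) ^ 3 := mul_le_mul_of_nonneg_right hN9 (by positivity)
    have h4 : 1 ≤ (N : ℤ) ^ 3 := one_le_pow₀ (by linarith)
    linarith
  have h2 : ((N : ℤ) ^ 3) ^ (N - 4) ≤ (a - 1) ^ (N - 4) := pow_le_pow_left₀ (by positivity) hα _
  have h3 : (a - 1) ^ (N - 4) ≤ (d - a * b) * (a - 1) ^ (N - 4) := by
    have h5 : 0 ≤ (a - 1) ^ (N - 4) := pow_nonneg (by omega) _
    nlinarith
  have h4 : (b - 1) ^ (N - 4 + 2) < ((N : ℤ) ^ 2) ^ (N - 4 + 2) :=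
    pow_lt_pow_left₀ hcon (by omega) (by omega)
  have h5 : ((N : ℤ) ^ 3) ^ (N - 4) < ((N : ℤ) ^ 2) ^ (N - 4 + 2) := by
    calc ((N : ℤ) ^ 3) ^ (N - 4) ≤ _ := h2
      _ ≤ _ := h3
      _ ≤ _ := h1
      _ < _ := h4
  rw [← pow_mul, ← pow_mul] at h5
  have h6 := (pow_lt_pow_iff_right₀ (show (1 : ℤ) < N by linarith)).mp h5
  omega

end Pool.Agent.N998.CT
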