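import Pool.Agent.N998.CT.Pos

set_option autoImplicit false

/-! Real roots: `z (n + 2)² ≤ q`. -/

namespace Pool.Agent.N998.CT

lemma real_succ (x y : ℝ) (p q : ℤ) (hp : (p : ℝ) = x + y) (hq : (q : ℝ) = x * y) :
    ∀ j : ℕ, (seg p q (j + 1) : ℝ) = y ^ (j + 1) + x * seg p q j
  | 0 => by simp only [seg]; push_cast; rw [hp]; ring
  | j + 1 => by
      have h := real_succ x y p q hp hq j
      have e : seg p q (j + 1 + 1) = p * seg p q (j + 1) - q * seg p q j := rfl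
      rw [e]
      push_cast
      rw [hp, hq]
      linear_combination y * h

/-- the inequality between the arithmetic and the geometric means -/
lemma real_lower (x y g : ℝ) (p q : ℤ) (hp : (p : ℝ) = x + y) (hq : (q : ℝ) = x * y)
    (hx : 0 ≤ x) (hy : 0 ≤ y) (hg : 0 ≤ g) (hg2 : g ^ 2 = x * y) :
    ∀ j : ℕ, ((j : ℝ) + 1) * g ^ j ≤ seg p q j
  | 0 => by simp [seg]
  | 1 => by
      simp only [seg]
      rw [hp]
      push_cast
      nlinarith [sq_nonneg (x - y), sq_nonneg (x + y - 2 * g)]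
  | j + 2 => by
      have h := real_lower x y g p q hp hq hx hy hg hg2 j
      have h1 := real_succ x y p q hp hq (j + 1)
      have h2 := real_succ y x p q (by rw [hp]; ring) (by rw [hq]; ring) j
      have e : j + 1 + 1 = j + 2 := rfl
      rw [e] at h1
      have h3 : (seg p q (j + 2) : ℝ) = y ^ (j + 2) + x ^ (j + 2) + g ^ 2 * seg p q j := by
        rw [h1, h2, hg2]; ring
      have h4 : g ^ 2 * (((j : ℝ) + 1) * g ^ j) ≤ g ^ 2 * seg p q j :=
        mul_le_mul_of_nonneg_left h (by positivity)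
      have h5 : 2 * g ^ (j + 2) ≤ y ^ (j + 2) + x ^ (j + 2) := by
        have h6 : (g ^ (j + 2)) ^ 2 = x ^ (j + 2) * y ^ (j + 2) := by
          rw [← pow_mul, mul_comm, pow_mul, hg2, mul_pow]
        have h7 : 0 ≤ x ^ (j + 2) := by positivity
        have h8 : 0 ≤ y ^ (j + 2) := by positivity
        have h9 : 0 ≤ g ^ (j + 2) := by positivity
        nlinarith [sq_nonneg (x ^ (j + 2) - y ^ (j + 2))]
      rw [h3]
      push_cast
      have e2 : ((j : ℝ) + 2 + 1) * g ^ (j + 2) =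
          2 * g ^ (j + 2) + g ^ 2 * (((j : ℝ) + 1) * g ^ j) := by ring
      rw [e2]
      linarith

/-- **The main inequality in the unstable case**: `z (n + 1)² ≤ q`. -/
theorem main_ineq (α β z p q : ℤ) (hp : p = α + β) (hq : q = α * β + z) (hβ : 0 ≤ β)
    (hβα : β ≤ α) (hz : 0 < z) (hD : 4 * q ≤ p ^ 2) (n : ℕ)
    (h : α * seg p q n ≤ seg p q (n + 1)) : z * ((n : ℤ) + 1) ^ 2 ≤ q := by
  have hq0 : 0 < q := by
    have : 0 ≤ α * β := mul_nonneg (hβ.trans hβα) hβ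
    linarith
  have hq0r : (0 : ℝ) < q := by exact_mod_cast hq0
  have hDr : (4 : ℝ) * q ≤ (p : ℝ) ^ 2 := by exact_mod_cast hD
  have hp0 : (0 : ℝ) ≤ p := by
    have : 0 ≤ p := by omega
    exact_mod_cast this
  have hzr : (0 : ℝ) < z := by exact_mod_cast hz
  have hαβ : (β : ℝ) ≤ α := by exact_mod_cast hβα
  have hpr : (p : ℝ) = α + β := by exact_mod_cast hp
  have hqr : (q : ℝ) = α * β + z := by exact_mod_cast hq
  set s : ℝ := Real.sqrt ((p : ℝ) ^ 2 - 4 * q) with hs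
  have hs0 : 0 ≤ s := Real.sqrt_nonneg _
  have hs2 : s ^ 2 = (p : ℝ) ^ 2 - 4 * q := Real.sq_sqrt (by linarith)
  have hsp : s ≤ p := by
    apply abs_le_of_sq_le_sq' _ hp0 |>.2
    nlinarith
  set x : ℝ := ((p : ℝ) + s) / 2 with hx
  set y : ℝ := ((p : ℝ) - s) / 2 with hy
  have hx0 : 0 ≤ x := by positivity
  have hy0 : 0 ≤ y := by rw [hy]; linarith
  have hxy : (p : ℝ) = x + y := by rw [hx, hy]; ring
  have hxyq : (q : ℝ) = x * y := by
    rw [hx, hy]; nlinarith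
  set g : ℝ := Real.sqrt q with hg
  have hg0 : 0 < g := Real.sqrt_pos.mpr hq0r
  have hg2 : g ^ 2 = q := Real.sq_sqrt hq0r.le
  set H : ℝ := (seg p q n : ℝ) with hH
  have hlow : ((n : ℝ) + 1) * g ^ n ≤ H :=
    real_lower x y g p q hxy hxyq hx0 hy0 hg0.le (by rw [hg2, hxyq]) n
  have hHpos : 0 < H := lt_of_lt_of_le (by positivity) hlow
  have hr : (α : ℝ) * H ≤ seg p q (n + 1) := by
    rw [hH]; exact_mod_cast h
  have h1 := real_succ x y p q hxy hxyq n
  have h2 := real_succ y x p q (by rw [hxy]; ring) (by rw [hxyq]; ring) n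
  rw [← hH] at h1 h2
  have hA : (α - x) * H ≤ y ^ (n + 1) := by linarith
  have hB : (α - y) * H ≤ x ^ (n + 1) := by linarith
  have hAB : ((α : ℝ) - x) * (α - y) = z := by
    have e : ((α : ℝ) - x) * (α - y) = α ^ 2 - (x + y) * α + x * y := by ring
    rw [e, ← hxy, ← hxyq, hpr, hqr]
    ring
  have hBpos : 0 < (α : ℝ) - y := by
    have h3 : y ≤ α := by
      rw [hy]; linarith
    rcases eq_or_lt_of_le h3 with h4 | h4
    · rw [← h4, sub_self, mul_zero] at hAB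
      linarith
    · linarith
  have hApos : 0 < (α : ℝ) - x := by
    by_contra hcon
    push Not at hcon
    have : ((α : ℝ) - x) * (α - y) ≤ 0 := mul_nonpos_of_nonpos_of_nonneg hcon hBpos.le
    linarith
  have h3 : ((α - x) * H) * ((α - y) * H) ≤ y ^ (n + 1) * x ^ (n + 1) :=
    mul_le_mul hA hB (by positivity) (by positivity)
  have h4 : (z : ℝ) * H ^ 2 ≤ (q : ℝ) ^ (n + 1) := by
    have e1 : ((α - x) * H) * ((α - y) * H) = (z : ℝ) * H ^ 2 := by rw [← hAB]; ring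
    have e2 : y ^ (n + 1) * x ^ (n + 1) = (q : ℝ) ^ (n + 1) := by
      rw [hxyq, mul_pow]; ring
    rw [e1, e2] at h3
    exact h3
  have h5 : (((n : ℝ) + 1) * g ^ n) ^ 2 ≤ H ^ 2 := pow_le_pow_left₀ (by positivity) hlow 2
  have h6 : (z : ℝ) * ((n : ℝ) + 1) ^ 2 * (q : ℝ) ^ n ≤ q * (q : ℝ) ^ n := by
    have e1 : (((n : ℝ) + 1) * g ^ n) ^ 2 = ((n : ℝ) + 1) ^ 2 * (q : ℝ) ^ n := by
      rw [mul_pow, ← pow_mul, mul_comm n 2, pow_mul, hg2]
    rw [e1] at h5
    have h7 : (z : ℝ) * (((n : ℝ) + 1) ^ 2 * (q : ℝ) ^ n) ≤ z * H ^ 2 :=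
      mul_le_mul_of_nonneg_left h5 hzr.le
    rw [pow_succ (q : ℝ) n] at h4
    linarith
  have h7 : (z : ℝ) * ((n : ℝ) + 1) ^ 2 ≤ q := le_of_mul_le_mul_right h6 (by positivity)
  exact_mod_cast h7

end Pool.Agent.N998.CT
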