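import Pool.Agent.N998.CT.Deg
import Pool.Agent.N998.CT.Real
import Pool.Agent.R852.LK.Fin

set_option autoImplicit false

/-! The discriminant is small compared with the degree. -/

namespace Pool.Agent.N998.CT

open Filter Pool.Agent.R920.CH Pool.Agent.R852.BC Pool.Agent.R852.LK

/-- The known conditions for the Chern classes in the case of a smooth subvariety of codimension two
which is not a complete intersection. -/
structure Cond (N : ℕ) (c₁ d : ℤ) : Prop where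
  pos : 0 < d
  rr : RiemannRoch N (poly2 c₁ d)
  seg_nonneg : ∀ j : ℕ, j + 2 ≤ N → 0 ≤ seg (c₁ - 2) (d - c₁ + 1) j
  unst : 4 * d ≤ c₁ ^ 2 → ∃ a b : ℤ, a + b = c₁ ∧ 0 < b ∧ b ≤ a ∧ a * b < d ∧
    ∀ j : ℕ, j + 3 ≤ N →
      (a - 1) * seg (c₁ - 2) (d - c₁ + 1) j ≤ seg (c₁ - 2) (d - c₁ + 1) (j + 1)

/-- a real number with a small power is close to `1` -/
lemma root_le (r A L : ℝ) (M : ℕ) (hM : 1 ≤ M) (hr : 1 ≤ r) (hA : 0 ≤ A) (hL : 0 ≤ L)
    (hLM : A * L ≤ M) (h : r ^ M ≤ Real.exp (A * L)) : r ≤ 1 + 2 * (A * L) / M := by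
  have hM0 : (0 : ℝ) < M := by exact_mod_cast hM
  have hr0 : 0 < r := by linarith
  have h1 : Real.log r ≤ A * L / M := by
    rw [le_div_iff₀ hM0, mul_comm]
    have h2 := Real.log_le_log (by positivity) h
    rw [Real.log_exp, Real.log_pow] at h2
    exact h2
  have h2 : r ≤ Real.exp (A * L / M) := by
    rw [← Real.exp_log hr0]
    exact Real.exp_le_exp.mpr h1
  set t : ℝ := A * L / M with ht
  have ht0 : 0 ≤ t := by positivity
  have ht1 : t ≤ 1 := by rw [ht, div_le_one hM0]; exact hLM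
  have h3 := Real.abs_exp_sub_one_sub_id_le (x := t) (by rw [abs_of_nonneg ht0]; exact ht1)
  have h4 := (abs_le.mp h3).2
  have h5 : t ^ 2 ≤ t := by nlinarith
  have e : 1 + 2 * (A * L) / M = 1 + 2 * t := by rw [ht]; ring
  rw [e]
  linarith

/-- `N ^ A` as an exponential -/
lemma rpow_exp (N : ℕ) (A : ℝ) (hN : 1 ≤ N) : (N : ℝ) ^ A = Real.exp (A * Real.log N) := by
  rw [Real.rpow_def_of_pos (by exact_mod_cast hN), mul_comm]

/-- **The unstable case**: `a - b ≤ 2 A (b - 1) log N / (N - 4)`. -/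
lemma unst_close (A : ℝ) (hA : 0 ≤ A) (N : ℕ) (hN : 5 ≤ N)
    (hAN : A * Real.log N ≤ ((N - 4 : ℕ) : ℝ))
    (c₁ d a b : ℤ) (hd : (d : ℝ) ≤ (N : ℝ) ^ A) (hb : 0 < b) (hba : b ≤ a)
    (hab : a + b = c₁) (hz : a * b < d)
    (h : ∀ j : ℕ, j + 3 ≤ N →
      (a - 1) * seg (c₁ - 2) (d - c₁ + 1) j ≤ seg (c₁ - 2) (d - c₁ + 1) (j + 1)) :
    ((a : ℝ) - b) * ((N - 4 : ℕ) : ℝ) ≤ 2 * (A * Real.log N) * (b - 1) ∧ 1 < b := by
  have hN4 : (0 : ℝ) < ((N - 4 : ℕ) : ℝ) := by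
    have : 0 < N - 4 := by omega
    exact_mod_cast this
  have hz1 : (1 : ℤ) ≤ d - a * b := by linarith
  have hineq := ineq (a - 1) (b - 1) (d - a * b) (c₁ - 2) (d - c₁ + 1)
    (by linarith) (by rw [← hab]; ring) (by linarith) (by linarith) (by linarith)
    (N - 2) (fun j hj => h j (by omega))
  have hb1 : 1 < b := by
    have h1 := hineq 0 (by omega)
    rw [pow_zero, mul_one, zero_add] at h1
    by_contra hcon
    have h2 : b = 1 := by omega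
    rw [h2] at h1
    norm_num at h1
    rw [h2] at hz1
    linarith
  refine ⟨?_, hb1⟩
  have h1 := hineq (N - 4) (by omega)
  have h2 : (a - 1) ^ (N - 4) ≤ (b - 1) ^ (N - 4 + 2) := by
    have h3 : 0 ≤ (a - 1) ^ (N - 4) := pow_nonneg (by linarith) _
    nlinarith
  have hβ0 : (0 : ℝ) < (b : ℝ) - 1 := by
    have : (0 : ℤ) < b - 1 := by omega
    exact_mod_cast this
  have hβα : (b : ℝ) - 1 ≤ (a : ℝ) - 1 := by
    have : (b : ℝ) ≤ a := by exact_mod_cast hba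
    linarith
  set r : ℝ := ((a : ℝ) - 1) / (b - 1) with hr
  have hr1 : 1 ≤ r := by
    rw [hr, le_div_iff₀ hβ0]; linarith
  have h3 : r ^ (N - 4) ≤ ((b : ℝ) - 1) ^ 2 := by
    rw [hr, div_pow, div_le_iff₀ (by positivity)]
    have h4 : ((a : ℝ) - 1) ^ (N - 4) ≤ ((b : ℝ) - 1) ^ (N - 4 + 2) := by exact_mod_cast h2
    rw [pow_add] at h4
    linarith
  have h4 : ((b : ℝ) - 1) ^ 2 ≤ d := by
    have h5 : (b - 1) ^ 2 ≤ d := by nlinarith
    exact_mod_cast h5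
  have h5 : r ^ (N - 4) ≤ Real.exp (A * Real.log N) := by
    rw [← rpow_exp N A (by omega)]
    exact (h3.trans h4).trans hd
  have h6 := root_le r A (Real.log N) (N - 4) (by omega) hr1 hA
    (Real.log_natCast_nonneg N) hAN h5
  have h7 : ((a : ℝ) - 1) = r * (b - 1) := by rw [hr]; field_simp
  have h8 : (a : ℝ) - b = (r - 1) * (b - 1) := by
    rw [sub_mul, ← h7]; ring
  rw [h8]
  have h9 : (r - 1) * ((N - 4 : ℕ) : ℝ) ≤ 2 * (A * Real.log N) := by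
    have h10 : r - 1 ≤ 2 * (A * Real.log N) / ((N - 4 : ℕ) : ℝ) := by linarith
    rwa [le_div_iff₀ hN4] at h10
  calc (r - 1) * ((b : ℝ) - 1) * ((N - 4 : ℕ) : ℝ)
      = ((r - 1) * ((N - 4 : ℕ) : ℝ)) * (b - 1) := by ring
    _ ≤ _ := mul_le_mul_of_nonneg_right h9 hβ0.le

/-- `log` is smaller than powers -/
lemma log_small (C η : ℝ) (hη : 0 < η) :
    ∀ᶠ N : ℕ in atTop, C * Real.log N ≤ (N : ℝ) ^ η := by
  have h1 : ∀ᶠ x : ℝ in atTop, ‖Real.log x‖ ≤ (1 / (|C| + 1)) * ‖x ^ η‖ :=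
    (isLittleO_log_rpow_atTop hη).bound (by positivity)
  have h2 := tendsto_natCast_atTop_atTop.eventually h1
  filter_upwards [h2, eventually_ge_atTop 1] with N hN hN1
  have hN1r : (1 : ℝ) ≤ N := by exact_mod_cast hN1
  have h3 : 0 ≤ Real.log N := Real.log_nonneg hN1r
  have h4 : 0 ≤ (N : ℝ) ^ η := by positivity
  rw [Real.norm_of_nonneg h3, Real.norm_of_nonneg h4] at hN
  have h5 : (|C| + 1) * Real.log N ≤ (N : ℝ) ^ η := by
    have h6 : (|C| + 1) * Real.log N ≤ (|C| + 1) * (1 / (|C| + 1) * (N : ℝ) ^ η) :=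
      mul_le_mul_of_nonneg_left hN (by positivity)
    have h7 : (|C| + 1) * (1 / (|C| + 1) * (N : ℝ) ^ η) = (N : ℝ) ^ η := by
      have : |C| + 1 ≠ 0 := by positivity
      field_simp
    linarith
  have h8 : C * Real.log N ≤ (|C| + 1) * Real.log N := by
    apply mul_le_mul_of_nonneg_right _ h3
    linarith [le_abs_self C]
  linarith

/-- **The discriminant is small.** -/
theorem disc_small (A η : ℝ) (hA : 0 ≤ A) (hη : 0 < η) : ∀ᶠ N : ℕ in atTop, ∀ c₁ d : ℤ,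
    Cond N c₁ d → (d : ℝ) ≤ (N : ℝ) ^ A →
      |(c₁ : ℝ) ^ 2 - 4 * d| * (N : ℝ) ^ (2 - η) ≤ d ∧ 0 < c₁ := by
  filter_upwards [ev_ge 256 η hη, log_small A 1 one_pos, log_small (4 * A) (η / 2) (by positivity),
    log_small (2 * A) 1 one_pos, eventually_ge_atTop 8] with N h256 hl1 hl2 hl3 hN8 c₁ d hc hdA
  have hN8r : (8 : ℝ) ≤ N := by exact_mod_cast hN8
  have hN0 : (0 : ℝ) < N := by linarith
  have hd0 : (0 : ℝ) < d := by exact_mod_cast hc.pos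
  rw [Real.rpow_one] at hl1 hl3
  have hlog : 0 ≤ Real.log N := Real.log_natCast_nonneg N
  have hsplit : (N : ℝ) ^ (2 - η) * (N : ℝ) ^ η = (N : ℝ) ^ 2 := by
    rw [← Real.rpow_add hN0, ← Real.rpow_natCast]
    congr 1
    push_cast; ring
  have hNη : (0 : ℝ) < (N : ℝ) ^ η := Real.rpow_pos_of_pos hN0 _
  have hN2η : (0 : ℝ) < (N : ℝ) ^ (2 - η) := Real.rpow_pos_of_pos hN0 _
  rcases lt_or_ge (c₁ ^ 2) (4 * d) with hD | hD
  · -- negative discriminant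
    have hD' : (c₁ - 2) ^ 2 < 4 * (d - c₁ + 1) := by linarith
    obtain ⟨hp, hs⟩ := sector (c₁ - 2) (d - c₁ + 1) hD' (N - 1) (by omega)
      (fun j hj => hc.seg_nonneg j (by omega))
    refine ⟨?_, by linarith⟩
    have hNs : ((N - 1 : ℕ) : ℝ) = (N : ℝ) - 1 := by
      rw [Nat.cast_sub (by omega)]; norm_num
    rw [hNs] at hs
    have e1 : (4 * ((d - c₁ + 1 : ℤ) : ℝ) - ((c₁ - 2 : ℤ) : ℝ) ^ 2) = 4 * d - (c₁ : ℝ) ^ 2 := by
      push_cast; ring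
    rw [e1] at hs
    have hDr : (c₁ : ℝ) ^ 2 < 4 * d := by exact_mod_cast hD
    have hpr : (0 : ℝ) < ((c₁ - 2 : ℤ) : ℝ) := by exact_mod_cast hp
    have hc1r : (2 : ℝ) < c₁ := by push_cast at hpr; linarith
    have habs : |(c₁ : ℝ) ^ 2 - 4 * d| = 4 * d - (c₁ : ℝ) ^ 2 := by
      rw [abs_of_neg (by linarith)]; ring
    have hkey : (4 * d - (c₁ : ℝ) ^ 2) * ((N : ℝ) - 1) ^ 2 ≤ 16 * (c₁ : ℝ) ^ 2 := by
      rw [le_div_iff₀ (by linarith)] at hs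
      have h1 : (0 : ℝ) ≤ Real.sqrt (4 * d - (c₁ : ℝ) ^ 2) := Real.sqrt_nonneg _
      have h2 := Real.sq_sqrt (show (0 : ℝ) ≤ 4 * d - (c₁ : ℝ) ^ 2 by linarith)
      have h3 : (Real.sqrt (4 * d - (c₁ : ℝ) ^ 2) * ((N : ℝ) - 1)) ^ 2 ≤
          (4 * ((c₁ - 2 : ℤ) : ℝ)) ^ 2 := by
        apply pow_le_pow_left₀ _ hs
        apply mul_nonneg h1
        linarith
      rw [mul_pow, h2] at h3
      push_cast at h3
      nlinarith
    rw [habs]
    have hNsq : (N : ℝ) ^ 2 ≤ 4 * ((N : ℝ) - 1) ^ 2 := by nlinarith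
    have h1 : (4 * d - (c₁ : ℝ) ^ 2) * (N : ℝ) ^ 2 ≤ 256 * d := by
      have h0 : (0 : ℝ) ≤ 4 * d - (c₁ : ℝ) ^ 2 := by linarith
      nlinarith [mul_le_mul_of_nonneg_left hNsq h0]
    have h2 : (4 * d - (c₁ : ℝ) ^ 2) * (N : ℝ) ^ (2 - η) * (N : ℝ) ^ η ≤ (d : ℝ) * (N : ℝ) ^ η := by
      calc (4 * d - (c₁ : ℝ) ^ 2) * (N : ℝ) ^ (2 - η) * (N : ℝ) ^ η
          = (4 * d - (c₁ : ℝ) ^ 2) * (N : ℝ) ^ 2 := by rw [mul_assoc, hsplit]
        _ ≤ 256 * (d : ℝ) := h1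
        _ = (d : ℝ) * 256 := by ring
        _ ≤ _ := mul_le_mul_of_nonneg_left h256 hd0.le
    exact le_of_mul_le_mul_right h2 hNη
  · -- the unstable case
    obtain ⟨a, b, hab, hb, hba, hz, h⟩ := hc.unst hD
    have hAN : A * Real.log N ≤ ((N - 4 : ℕ) : ℝ) := by
      rw [Nat.cast_sub (by omega)]
      push_cast
      linarith
    obtain ⟨h1, hb1⟩ := unst_close A hA N (by omega) hAN c₁ d a b hdA hb hba hab hz h
    refine ⟨?_, by linarith⟩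
    have hDr : 4 * (d : ℝ) ≤ (c₁ : ℝ) ^ 2 := by exact_mod_cast hD
    rw [abs_of_nonneg (by linarith)]
    have hN4 : ((N - 4 : ℕ) : ℝ) = (N : ℝ) - 4 := by
      rw [Nat.cast_sub (by omega)]; norm_num
    rw [hN4] at h1
    have hβ0 : (0 : ℝ) < (b : ℝ) - 1 := by
      have : (0 : ℤ) < b - 1 := by omega
      exact_mod_cast this
    have hbar : (b : ℝ) ≤ a := by exact_mod_cast hba
    have habr : (a : ℝ) + b = c₁ := by exact_mod_cast hab
    have hzr : (a : ℝ) * b < d := by exact_mod_cast hz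
    -- `(a - b) N ≤ 4 A log N (b - 1)`
    have h2 : ((a : ℝ) - b) * N ≤ (4 * A * Real.log N) * (b - 1) := by
      have h3 : (N : ℝ) ≤ 2 * (N - 4) := by linarith
      have h4 : ((a : ℝ) - b) * N ≤ (a - b) * (2 * (N - 4)) :=
        mul_le_mul_of_nonneg_left h3 (by linarith)
      linarith
    have h3 : ((a : ℝ) - b) * N ≤ (N : ℝ) ^ (η / 2) * (b - 1) :=
      h2.trans (mul_le_mul_of_nonneg_right hl2 hβ0.le)
    have h4 : (((a : ℝ) - b) * N) ^ 2 ≤ ((N : ℝ) ^ (η / 2) * (b - 1)) ^ 2 := by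
      apply pow_le_pow_left₀ _ h3
      apply mul_nonneg (by linarith) hN0.le
    have h5 : ((N : ℝ) ^ (η / 2)) ^ 2 = (N : ℝ) ^ η := by
      rw [← Real.rpow_natCast, ← Real.rpow_mul hN0.le]
      congr 1
      push_cast; ring
    have h6 : ((b : ℝ) - 1) ^ 2 ≤ d := by nlinarith
    have h7 : (c₁ : ℝ) ^ 2 - 4 * d ≤ ((a : ℝ) - b) ^ 2 := by
      rw [← habr]; nlinarith
    have h8 : ((c₁ : ℝ) ^ 2 - 4 * d) * (N : ℝ) ^ (2 - η) * (N : ℝ) ^ η ≤ (d : ℝ) * (N : ℝ) ^ η := by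
      calc ((c₁ : ℝ) ^ 2 - 4 * d) * (N : ℝ) ^ (2 - η) * (N : ℝ) ^ η
          = ((c₁ : ℝ) ^ 2 - 4 * d) * (N : ℝ) ^ 2 := by rw [mul_assoc, hsplit]
        _ ≤ ((a : ℝ) - b) ^ 2 * (N : ℝ) ^ 2 := by gcongr
        _ = (((a : ℝ) - b) * N) ^ 2 := by ring
        _ ≤ ((N : ℝ) ^ (η / 2) * (b - 1)) ^ 2 := h4
        _ = (N : ℝ) ^ η * ((b : ℝ) - 1) ^ 2 := by rw [mul_pow, h5]
        _ ≤ (N : ℝ) ^ η * d := by gcongr
        _ = _ := by ring
    exact le_of_mul_le_mul_right h8 hNη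

end Pool.Agent.N998.CT
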