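import Pool.Agent.N998.CT.NefSmall

set_option autoImplicit false

/-! Nef bundles of rank two: large `n`, and the unstable case. -/

namespace Pool.Agent.N998.CT

open Pool.Agent.R920.CH Pool.Agent.R852.BC Finset Filter

/-- **The stable case.** -/
theorem nef_stable (ε : ℝ) (hε : 0 < ε) : ∀ᶠ n : ℕ in atTop, ∀ c₁ c₂ : ℤ,
    (∀ j : ℕ, j ≤ n → 0 ≤ seg c₁ c₂ j) → RiemannRoch n (poly2 c₁ c₂) → c₁ ^ 2 < 4 * c₂ →
    (n : ℝ) ^ (2 * Real.exp (1 / 2) + 1 - ε) ≤ c₁ := by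
  filter_upwards [rank_two 7 ε hε, ev_ge 16 ε hε, eventually_ge_atTop 6]
    with n hn h16 hn6 c₁ c₂ hseg hRR hD
  have hn6r : (6 : ℝ) ≤ n := by exact_mod_cast hn6
  have hn0 : (0 : ℝ) < n := by linarith
  have hn1 : (1 : ℝ) ≤ n := by linarith
  obtain ⟨hp, hs⟩ := sector c₁ c₂ hD (n + 1) (by omega) (fun j hj => hseg j (by omega))
  push_cast at hs
  have hDr : (c₁ : ℝ) ^ 2 < 4 * c₂ := by exact_mod_cast hD
  have hpr : (0 : ℝ) < c₁ := by exact_mod_cast hp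
  by_contra hcon
  push Not at hcon
  have hkey : (4 * c₂ - (c₁ : ℝ) ^ 2) * (n : ℝ) ^ 2 ≤ 16 * (c₁ : ℝ) ^ 2 := by
    rw [le_div_iff₀ (by linarith)] at hs
    have h1 : (0 : ℝ) ≤ Real.sqrt (4 * c₂ - (c₁ : ℝ) ^ 2) := Real.sqrt_nonneg _
    have h2 := Real.sq_sqrt (show (0 : ℝ) ≤ 4 * c₂ - (c₁ : ℝ) ^ 2 by linarith)
    have h0 : Real.sqrt (4 * c₂ - (c₁ : ℝ) ^ 2) * n ≤ 4 * c₁ := by nlinarith
    have h3 : (Real.sqrt (4 * c₂ - (c₁ : ℝ) ^ 2) * n) ^ 2 ≤ (4 * (c₁ : ℝ)) ^ 2 :=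
      pow_le_pow_left₀ (by positivity) h0 2
    rw [mul_pow, h2] at h3
    nlinarith
  have hle : (4 * c₂ - (c₁ : ℝ) ^ 2) ≤ (n : ℝ) ^ (4 * Real.exp (1 / 2) - ε) := by
    have e1 : (n : ℝ) ^ (4 * Real.exp (1 / 2) - ε) * (n : ℝ) ^ 2 =
        (n : ℝ) ^ ε * ((n : ℝ) ^ (2 * Real.exp (1 / 2) + 1 - ε)) ^ 2 := by
      rw [← Real.rpow_natCast (n : ℝ) 2, ← Real.rpow_natCast _ 2, ← Real.rpow_mul hn0.le,
        ← Real.rpow_add hn0, ← Real.rpow_add hn0]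
      congr 1
      push_cast; ring
    have h4 : 16 * (c₁ : ℝ) ^ 2 ≤
        (n : ℝ) ^ ε * ((n : ℝ) ^ (2 * Real.exp (1 / 2) + 1 - ε)) ^ 2 := by
      gcongr
    have h5 := hkey.trans h4
    rw [← e1] at h5
    exact le_of_mul_le_mul_right h5 (by positivity)
  have h4 : ((|c₁ ^ 2 - 4 * c₂| : ℤ) : ℝ) ≤ (n : ℝ) ^ (4 * Real.exp (1 / 2) - ε) := by
    push_cast
    rw [abs_of_neg (by linarith)]
    linarith
  have hexp := exp_half_bounds.2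
  obtain ⟨a, b, hab, hab2⟩ := hn c₁ c₂ (c₁ ^ 2 - 4 * c₂) 1 hRR (by ring)
    (h4.trans (Real.rpow_le_rpow_of_exponent_le hn1 (by linarith))) h4
  rw [hab, hab2] at hD
  nlinarith [sq_nonneg (a - b)]

/-- **The unstable case.** -/
theorem nef_unstable (n : ℕ) (hn : 2 ≤ n) (c₁ c₂ a b : ℤ) (hab : a + b = c₁) (hb : 0 ≤ b)
    (hba : b ≤ a) (hz : (n : ℤ) ^ 2 / 4 ≤ c₂ - a * b) (hD : 4 * c₂ ≤ c₁ ^ 2)
    (h : ∀ j : ℕ, j < n → a * seg c₁ c₂ j ≤ seg c₁ c₂ (j + 1)) :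
    (n : ℤ) ^ 2 * ((n : ℤ) ^ 2 / 4) ≤ c₂ := by
  obtain ⟨m, rfl⟩ : ∃ m, n = m + 2 := ⟨n - 2, by omega⟩
  have hz0 : (0 : ℤ) < ((m + 2 : ℕ) : ℤ) ^ 2 / 4 := by
    have h4 : (4 : ℤ) ≤ ((m + 2 : ℕ) : ℤ) ^ 2 := by
      push_cast
      nlinarith
    omega
  have h2 := main_ineq a b (c₂ - a * b) c₁ c₂ (by omega) (by ring) hb hba (by linarith) hD (m + 1)
    (h (m + 1) (by omega))
  have e : ((m + 2 : ℕ) : ℤ) ^ 2 * (((m + 2 : ℕ) : ℤ) ^ 2 / 4) ≤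
      (c₂ - a * b) * (((m + 1 : ℕ) : ℤ) + 1) ^ 2 := by
    rw [mul_comm]
    have e1 : (((m + 1 : ℕ) : ℤ) + 1) = ((m + 2 : ℕ) : ℤ) := by push_cast; ring
    rw [e1]
    exact mul_le_mul_of_nonneg_right hz (by positivity)
  linarith

end Pool.Agent.N998.CT
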