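import Pool.Agent.N998.CT.Nef

set_option autoImplicit false

/-! Nef bundles of rank two: `7 ≤ n ≤ 11`. -/

namespace Pool.Agent.N998.CT

open Pool.Agent.R920.CH Finset

/-- the pair `(h_j, h_{j+1})` is computed and the signs are tested -/
def segTest (c d : ℤ) : ℕ → ℤ → ℤ → Bool
  | 0, _, _ => false
  | k + 1, a, b => decide (c * b - d * a < 0) || segTest c d k b (c * b - d * a)

lemma segTest_spec (c d : ℤ) : ∀ k j : ℕ, segTest c d k (seg c d j) (seg c d (j + 1)) = true →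
    ∃ i, i ≤ j + 1 + k ∧ seg c d i < 0
  | 0, j, h => by simp [segTest] at h
  | k + 1, j, h => by
      rw [segTest, Bool.or_eq_true, decide_eq_true_eq] at h
      have e : seg c d (j + 1 + 1) = c * seg c d (j + 1) - d * seg c d j := rfl
      rw [← e] at h
      rcases h with h | h
      · exact ⟨j + 1 + 1, by omega, h⟩
      · obtain ⟨i, h1, h2⟩ := segTest_spec c d k (j + 1) h
        exact ⟨i, by omega, h2⟩

/-- the products of the Riemann-Roch conditions are computed and tested -/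
def rrTest (D e : ℤ) : ℕ → ℕ → ℤ → ℤ → Bool
  | 0, _, _, _ => false
  | k + 1, h, P, M =>
    decide ((P * (D - (2 * h + e) ^ 2)) % (M * (4 * (2 * h + 1) * (2 * h + 2))) ≠ 0) ||
      rrTest D e k (h + 1) (P * (D - (2 * h + e) ^ 2)) (M * (4 * (2 * h + 1) * (2 * h + 2)))

/-- the product -/
def pq (D e : ℤ) (h : ℕ) : ℤ := ∏ j ∈ range h, (D - (2 * (j : ℤ) + e) ^ 2)

lemma rrTest_spec (D e : ℤ) : ∀ k h : ℕ, 1 ≤ h → rrTest D e k h (pq D e h) (md h) = true →
    ∃ l, h < l ∧ l ≤ h + k ∧ ¬ ((md l : ℕ) : ℤ) ∣ pq D e l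
  | 0, h, _, hr => by simp [rrTest] at hr
  | k + 1, h, h1, hr => by
      have e1 : pq D e (h + 1) = pq D e h * (D - (2 * h + e) ^ 2) := by
        unfold pq; rw [prod_range_succ]
      have e2 : ((md (h + 1) : ℕ) : ℤ) = md h * (4 * (2 * h + 1) * (2 * h + 2)) := by
        rw [md_succ h h1]; push_cast; ring
      rw [rrTest, ← e1, ← e2, Bool.or_eq_true, decide_eq_true_eq] at hr
      rcases hr with hr | hr
      · refine ⟨h + 1, by omega, by omega, ?_⟩
        intro hd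
        exact hr (Int.emod_eq_zero_of_dvd hd)
      · obtain ⟨l, g1, g2, g3⟩ := rrTest_spec D e k (h + 1) (by omega) hr
        exact ⟨l, by omega, by omega, g3⟩

/-- the test -/
def nefTest (J H : ℕ) (c d : ℤ) : Bool :=
  decide (4 * d ≤ c ^ 2) || segTest c d J 1 c ||
    rrTest (c ^ 2 - 4 * d) (c % 2) H 1 (c ^ 2 - 4 * d - (c % 2) ^ 2) 4

lemma nefTest_spec (n J H : ℕ) (hJ : J + 1 ≤ n) (hH : 2 * (1 + H) ≤ n) (c d : ℤ)
    (hRR : RiemannRoch n (poly2 c d)) (hseg : ∀ j : ℕ, j ≤ n → 0 ≤ seg c d j)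
    (hD : c ^ 2 < 4 * d) : nefTest J H c d = false := by
  rw [Bool.eq_false_iff]
  intro h
  unfold nefTest at h
  rw [Bool.or_eq_true, Bool.or_eq_true, decide_eq_true_eq] at h
  rcases h with (h | h) | h
  · linarith
  · obtain ⟨i, h1, h2⟩ := segTest_spec c d J 0 h
    exact absurd (hseg i (by omega)) (not_le.mpr h2)
  · have e1 : pq (c ^ 2 - 4 * d) (c % 2) 1 = c ^ 2 - 4 * d - (c % 2) ^ 2 := by
      simp [pq]
    have e2 : ((md 1 : ℕ) : ℤ) = 4 := by decide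
    rw [← e1, ← e2] at h
    obtain ⟨l, h1, h2, h3⟩ := rrTest_spec _ _ H 1 le_rfl h
    apply h3
    have h4 := divis hRR (h := l) (by omega) (by omega)
    unfold pq md
    exact_mod_cast h4

lemma test7 : ∀ c : Fin 21, ∀ d : Fin 201, nefTest 6 2 (c : ℤ) (d : ℤ) = true := by
  decide +kernel

lemma test8 : ∀ c : Fin 30, ∀ d : Fin 422, nefTest 7 3 (c : ℤ) (d : ℤ) = true := by
  decide +kernel

lemma test11 : ∀ c : Fin 33, ∀ d : Fin 514, nefTest 8 3 (c : ℤ) (d : ℤ) = true := by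
  decide +kernel

lemma nef_small (n J H C B : ℕ) (hJ : J + 1 ≤ n) (hH : 2 * (1 + H) ≤ n) (hn : 3 ≤ n)
    (hB : C ^ 2 ≤ 2 * B)
    (ht : ∀ c : Fin (C + 1), ∀ d : Fin (B + 1), nefTest J H (c : ℤ) (d : ℤ) = true)
    (c₁ c₂ : ℤ) (hRR : RiemannRoch n (poly2 c₁ c₂)) (hseg : ∀ j : ℕ, j ≤ n → 0 ≤ seg c₁ c₂ j)
    (hD : c₁ ^ 2 < 4 * c₂) : (C : ℤ) < c₁ := by
  by_contra hcon
  push Not at hcon
  have hc0 : 0 ≤ c₁ := by
    have h1 := hseg 1 (by omega)
    simpa only [seg] using h1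
  have hc2 : 0 < c₂ := by nlinarith [sq_nonneg c₁]
  have hc3 : 2 * c₂ ≤ c₁ ^ 2 := by
    have h3 := hseg 3 hn
    simp only [seg] at h3
    rcases eq_or_lt_of_le hc0 with h | h
    · have h2 := hseg 2 (by omega)
      simp only [seg] at h2
      rw [← h] at h2
      linarith
    · by_contra hc
      push Not at hc
      nlinarith
  have hCB : c₂ ≤ B := by
    have h1 : c₁ ^ 2 ≤ (C : ℤ) ^ 2 := pow_le_pow_left₀ hc0 hcon 2
    have h2 : ((C : ℤ)) ^ 2 ≤ 2 * B := by exact_mod_cast hB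
    linarith
  have h1 := ht ⟨c₁.toNat, by omega⟩ ⟨c₂.toNat, by omega⟩
  have e1 : (((⟨c₁.toNat, by omega⟩ : Fin (C + 1)) : ℕ) : ℤ) = c₁ := by
    simp [Int.toNat_of_nonneg hc0]
  have e2 : (((⟨c₂.toNat, by omega⟩ : Fin (B + 1)) : ℕ) : ℤ) = c₂ := by
    simp [Int.toNat_of_nonneg hc2.le]
  rw [e1, e2, nefTest_spec n J H hJ hH c₁ c₂ hRR hseg hD] at h1
  exact absurd h1 (by decide)

/-- `c₁ ≥ 3 n` for all `n ≥ 7`, negative discriminants -/
theorem nef_three (n : ℕ) (hn : 7 ≤ n) (c₁ c₂ : ℤ) (hRR : RiemannRoch n (poly2 c₁ c₂))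
    (hseg : ∀ j : ℕ, j ≤ n → 0 ≤ seg c₁ c₂ j) (hD : c₁ ^ 2 < 4 * c₂) : 3 * (n : ℤ) ≤ c₁ := by
  rcases lt_or_ge n 12 with h12 | h12
  · rcases Nat.lt_or_ge n 8 with h8 | h8
    · have h1 := nef_small n 6 2 20 200 (by omega) (by omega) (by omega) (by norm_num) test7
        c₁ c₂ hRR hseg hD
      omega
    rcases Nat.lt_or_ge n 11 with h11 | h11
    · have h1 := nef_small n 7 3 29 421 (by omega) (by omega) (by omega) (by norm_num) test8
        c₁ c₂ hRR hseg hD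
      omega
    · have h1 := nef_small n 8 3 32 513 (by omega) (by omega) (by omega) (by norm_num) test11
        c₁ c₂ hRR hseg hD
      omega
  · obtain ⟨h1, h2, -⟩ := nef_neg n h12 c₁ c₂ hRR hseg hD
    have hnr : (12 : ℤ) ≤ n := by exact_mod_cast h12
    by_contra hcon
    push Not at hcon
    have h3 : c₁ ^ 2 ≤ (3 * (n : ℤ)) ^ 2 := pow_le_pow_left₀ h1.le hcon.le 2
    nlinarith [sq_nonneg (n : ℤ)]

end Pool.Agent.N998.CT
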