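import Pool.Agent.N998.CT.Real
import Pool.Agent.R920.CH.Two

set_option autoImplicit false

/-! Subvarieties of codimension two and small degree of the projective space of dimension six. -/

namespace Pool.Agent.N998.CT

open Pool.Agent.R920.CH Finset

/-- the list of the pairs `(c₁, d)` -/
def list6 : List (ℤ × ℤ) :=
  [(15, 74), (16, 84), (17, 90), (17, 96), (18, 101), (19, 108), (19, 114), (19, 120), (19, 124),
   (20, 120), (20, 136), (21, 128), (21, 134), (21, 140), (21, 144), (22, 141), (22, 157),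
   (22, 165), (23, 150), (23, 156), (23, 162), (23, 166), (24, 164)]

/-- the test -/
def test6 (c d : ℤ) : Bool :=
  decide (4 * d ≤ c ^ 2) || decide (seg (c - 2) (d - c + 1) 1 < 0) ||
  decide (seg (c - 2) (d - c + 1) 2 < 0) || decide (seg (c - 2) (d - c + 1) 3 < 0) ||
  decide (seg (c - 2) (d - c + 1) 4 < 0) ||
  decide ((c ^ 2 - 4 * d - (c % 2) ^ 2) * (c ^ 2 - 4 * d - (2 + c % 2) ^ 2) % 192 ≠ 0) ||
  decide ((c ^ 2 - 4 * d - (c % 2) ^ 2) * (c ^ 2 - 4 * d - (2 + c % 2) ^ 2) *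
    (c ^ 2 - 4 * d - (4 + c % 2) ^ 2) % 23040 ≠ 0) ||
  decide ((c, d) ∈ list6)

lemma all6 : ∀ c : Fin 26, ∀ d : Fin 169, test6 (c : ℤ) (d : ℤ) = true := by decide +kernel

theorem neg6 (c d : ℤ) (hd0 : 0 < d) (hd : d ≤ 168) (hRR : RiemannRoch 6 (poly2 c d))
    (hseg : ∀ j : ℕ, j + 2 ≤ 6 → 0 ≤ seg (c - 2) (d - c + 1) j) (hD : c ^ 2 < 4 * d) :
    (c, d) ∈ list6 := by
  have hc0 : 0 ≤ c := by
    have h1 := hseg 1 (by norm_num)
    simp only [seg] at h1
    linarith
  have hc : c < 26 := by nlinarith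
  have h1 := all6 ⟨c.toNat, by omega⟩ ⟨d.toNat, by omega⟩
  have e1 : (((⟨c.toNat, by omega⟩ : Fin 26) : ℕ) : ℤ) = c := by
    simp [Int.toNat_of_nonneg hc0]
  have e2 : (((⟨d.toNat, by omega⟩ : Fin 169) : ℕ) : ℤ) = d := by
    simp [Int.toNat_of_nonneg hd0.le]
  rw [e1, e2] at h1
  have d2 := divis hRR (h := 2) (by norm_num) (by norm_num)
  have d3 := divis hRR (h := 3) (by norm_num) (by norm_num)
  rw [prod_range_succ, prod_range_succ, prod_range_zero] at d2
  rw [prod_range_succ, prod_range_succ, prod_range_succ, prod_range_zero] at d3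
  norm_num [Nat.factorial] at d2 d3
  unfold test6 at h1
  simp only [Bool.or_eq_true, decide_eq_true_eq] at h1
  have s1 := hseg 1 (by norm_num)
  have s2 := hseg 2 (by norm_num)
  have s3 := hseg 3 (by norm_num)
  have s4 := hseg 4 (by norm_num)
  rcases h1 with ((((((h1 | h1) | h1) | h1) | h1) | h1) | h1) | h1
  · omega
  · omega
  · omega
  · omega
  · omega
  · exact absurd (Int.emod_eq_zero_of_dvd d2) h1
  · exact absurd (Int.emod_eq_zero_of_dvd d3) h1
  · exact h1

theorem pos6 (c d a b : ℤ) (hb : 0 < b) (hba : b ≤ a) (hab : a + b = c) (hz : 9 ≤ d - a * b)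
    (hD : 4 * d ≤ c ^ 2)
    (h : (a - 1) * seg (c - 2) (d - c + 1) 3 ≤ seg (c - 2) (d - c + 1) 4) : 168 < d := by
  have h1 := main_ineq (a - 1) (b - 1) (d - a * b) (c - 2) (d - c + 1)
    (by linarith) (by rw [← hab]; ring) (by linarith) (by linarith) (by linarith)
    (by linarith) 3 h
  norm_num at h1
  have h2 : 144 ≤ d - c + 1 := by linarith
  by_contra hcon
  push Not at hcon
  have h3 : c ≤ 25 := by linarith
  have h4 : 0 < c := by linarith
  have h5 : c ^ 2 ≤ 625 := by nlinarith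
  have h6 : d ≤ 156 := by linarith
  have h7 : c ≤ 13 := by linarith
  have h8 : c ^ 2 ≤ 169 := by nlinarith
  linarith

end Pool.Agent.N998.CT
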