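import Pool.Agent.N998.CT.Cubic
import Pool.Agent.N998.CT.Deg

set_option autoImplicit false

/-! The quartic bounds. -/

namespace Pool.Agent.N998.CT

open Pool.Agent.R920.CH Pool.Agent.R852.BC Finset Filter

/-- the case of negative discriminants: `|D|` and the degree -/
lemma neg_disc (N : ℕ) (hN : 12 ≤ N) (c₁ d : ℤ) (hRR : RiemannRoch N (poly2 c₁ d))
    (hseg : ∀ j : ℕ, j + 2 ≤ N → 0 ≤ seg (c₁ - 2) (d - c₁ + 1) j) (hD : c₁ ^ 2 < 4 * d) :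
    ∃ m e : ℕ, e ≤ 1 ∧ 0 < m ∧ ((N : ℤ) - 1) ^ 2 * m ≤ 49 * d ∧
      ∀ h : ℕ, 1 ≤ h → 2 * h ≤ N → md h ∣ pr m e h := by
  have hD' : (c₁ - 2) ^ 2 < 4 * (d - c₁ + 1) := by linarith
  obtain ⟨hp, hs⟩ := sector11 (c₁ - 2) (d - c₁ + 1) hD' (N - 1) (by omega)
    (fun j hj => hseg j (by omega))
  have e2 : 4 * (d - c₁ + 1) - (c₁ - 2) ^ 2 = 4 * d - c₁ ^ 2 := by ring
  rw [e2] at hs
  obtain ⟨m, hm⟩ : ∃ m : ℕ, (m : ℤ) = 4 * d - c₁ ^ 2 := ⟨(4 * d - c₁ ^ 2).toNat, by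
    rw [Int.toNat_of_nonneg (by linarith)]⟩
  obtain ⟨e, he⟩ : ∃ e : ℕ, (e : ℤ) = c₁ % 2 := ⟨(c₁ % 2).toNat, by
    rw [Int.toNat_of_nonneg (by omega)]⟩
  rw [← hm] at hs
  refine ⟨m, e, by omega, by zify; linarith, ?_, ?_⟩
  · have hN1 : ((N - 1 : ℕ) : ℤ) = (N : ℤ) - 1 := by
      rw [Nat.cast_sub (by omega)]; norm_num
    rw [hN1] at hs
    have hc1sq : (c₁ - 2) ^ 2 ≤ c₁ ^ 2 := by nlinarith
    have h1 : c₁ ^ 2 ≤ 4 * d := by linarith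
    nlinarith
  · intro h h1 h2
    have h3 := divis hRR h1 h2
    have e3 : ∀ j ∈ range h, (c₁ ^ 2 - 4 * d - (2 * (j : ℤ) + c₁ % 2) ^ 2) =
        -((m : ℤ) + (2 * j + e) ^ 2) := by
      intro j _
      rw [he, hm]; ring
    rw [prod_congr rfl e3, prod_neg] at h3
    have h4 : (2 ^ (2 * h - 1) * (2 * h).factorial : ℤ) ∣
        ∏ j ∈ range h, ((m : ℤ) + (2 * j + e) ^ 2) := by
      rcases neg_one_pow_eq_or ℤ (range h).card with h5 | h5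
      · rw [h5, one_mul] at h3; exact h3
      · rw [h5, neg_one_mul, dvd_neg] at h3; exact h3
    unfold md pr
    exact_mod_cast h4

/-- the quartic bound for negative discriminants -/
theorem quart_neg (N : ℕ) (hN : 12 ≤ N) (c₁ d : ℤ) (hRR : RiemannRoch N (poly2 c₁ d))
    (hseg : ∀ j : ℕ, j + 2 ≤ N → 0 ≤ seg (c₁ - 2) (d - c₁ + 1) j) (hD : c₁ ^ 2 < 4 * d) :
    (N : ℤ) ^ 4 < 500 * d := by
  rcases le_or_gt N 494 with hN1 | hN1
  · have h1 := cubic_neg N hN c₁ d hRR hseg hD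
    have hNr : (12 : ℤ) ≤ N := by exact_mod_cast hN
    have hNr2 : (N : ℤ) ≤ 494 := by exact_mod_cast hN1
    set n : ℤ := (N : ℤ) with hn
    have h2 : n ^ 2 * (n - 5) ≤ (n - 1) * (n - 2) ^ 2 := by nlinarith
    have h3 : n ^ 2 ≤ 500 * (n - 5) := by nlinarith
    have h4 : n ^ 2 * n ^ 2 ≤ n ^ 2 * (500 * (n - 5)) :=
      mul_le_mul_of_nonneg_left h3 (by positivity)
    nlinarith
  · obtain ⟨m, e, he, hm, hmd, hdiv⟩ := neg_disc N hN c₁ d hRR hseg hD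
    set h : ℕ := N / 2 with hh
    set J : ℕ := (h - 1) / 3 with hJ
    have hmJ : 4 * J ^ 2 < m := by
      by_contra hcon
      push Not at hcon
      have h5 := pr_lt J m e h he hcon (by omega) (by omega)
      have h6 := hdiv h (by omega) (by omega)
      exact absurd (Nat.le_of_dvd (pr_pos m e h hm) h6) (not_le.mpr h5)
    have hJN : (N : ℤ) - 7 ≤ 6 * J := by omega
    have hNr : (495 : ℤ) ≤ N := by exact_mod_cast hN1
    have hmJ' : 4 * (J : ℤ) ^ 2 < m := by exact_mod_cast hmJ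
    set n : ℤ := (N : ℤ) with hn
    have h1 : (n - 7) ^ 2 ≤ 36 * (J : ℤ) ^ 2 := by nlinarith
    have h2 : (n - 7) ^ 2 ≤ 9 * m := by linarith
    have h3 : (n - 1) ^ 2 * (n - 7) ^ 2 ≤ (n - 1) ^ 2 * (9 * m) :=
      mul_le_mul_of_nonneg_left h2 (by positivity)
    have h4 : (n - 1) ^ 2 * (n - 7) ^ 2 ≤ 441 * d := by nlinarith
    -- `0.97 n ≤ n - 8`
    have h5 : 100 * (n ^ 2 - 8 * n) ≤ 100 * ((n - 1) * (n - 7)) := by nlinarith
    have h6 : 95 * n ^ 2 ≤ 100 * (n ^ 2 - 8 * n) := by nlinarith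
    have h7 : 95 * n ^ 2 ≤ 100 * ((n - 1) * (n - 7)) := h6.trans h5
    have h8 : (95 * n ^ 2) ^ 2 ≤ (100 * ((n - 1) * (n - 7))) ^ 2 :=
      pow_le_pow_left₀ (by positivity) h7 2
    have h9 : 9025 * n ^ 4 ≤ 10000 * ((n - 1) ^ 2 * (n - 7) ^ 2) := by nlinarith
    have h10 : 0 < n ^ 4 := by positivity
    nlinarith

/-- the unstable case -/
theorem pos_bound (N : ℕ) (hN : 3 ≤ N) (c₁ d a b z : ℤ) (hb : 0 < b) (hba : b ≤ a)
    (hab : a + b = c₁) (hz0 : 0 < z) (hz : z ≤ d - a * b) (hD : 4 * d ≤ c₁ ^ 2)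
    (h : ∀ j : ℕ, j + 3 ≤ N →
      (a - 1) * seg (c₁ - 2) (d - c₁ + 1) j ≤ seg (c₁ - 2) (d - c₁ + 1) (j + 1)) :
    z * ((N : ℤ) - 2) ^ 2 < d := by
  obtain ⟨n, rfl⟩ : ∃ n, N = n + 3 := ⟨N - 3, by omega⟩
  have h1 := main_ineq (a - 1) (b - 1) (d - a * b) (c₁ - 2) (d - c₁ + 1)
    (by linarith) (by rw [← hab]; ring) (by linarith) (by linarith) (by linarith)
    (by linarith) n (h n le_rfl)
  have h2 : z * (((n + 3 : ℕ) : ℤ) - 2) ^ 2 ≤ (d - a * b) * ((n : ℤ) + 1) ^ 2 := by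
    have e : ((n + 3 : ℕ) : ℤ) - 2 = n + 1 := by push_cast; ring
    rw [e]
    exact mul_le_mul_of_nonneg_right hz (by positivity)
  linarith

end Pool.Agent.N998.CT
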