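import Mathlib

set_option autoImplicit false

/-! Sequences `h_{j+2} = p h_{j+1} - q h_j` with `p² < 4 q` whose first terms are not negative. -/

namespace Pool.Agent.N998.CT

/-- The complete homogeneous symmetric functions of the two roots of `T² - p T + q`. -/
def seg (p q : ℤ) : ℕ → ℤ
  | 0 => 1
  | 1 => p
  | j + 2 => p * seg p q (j + 1) - q * seg p q j

lemma seg_trig (p q : ℤ) (ρ θ : ℝ) (hp : (p : ℝ) = 2 * ρ * Real.cos θ) (hq : (q : ℝ) = ρ ^ 2) :
    ∀ j : ℕ, (seg p q j : ℝ) * Real.sin θ = ρ ^ j * Real.sin ((j + 1) * θ)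
  | 0 => by simp [seg]
  | 1 => by
      have h : ((1 : ℕ) : ℝ) + 1 = 2 := by norm_num
      rw [h, Real.sin_two_mul]
      simp only [seg]
      rw [hp]; ring
  | j + 2 => by
      have h1 := seg_trig p q ρ θ hp hq j
      have h2 := seg_trig p q ρ θ hp hq (j + 1)
      simp only [seg]
      push_cast at h1 h2 ⊢
      have e1 : ((j : ℝ) + 2 + 1) * θ = (j + 1 + 1) * θ + θ := by ring
      have e2 : ((j : ℝ) + 1) * θ = (j + 1 + 1) * θ - θ := by ring
      rw [e2, Real.sin_sub] at h1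
      rw [e1, Real.sin_add]
      rw [sub_mul, mul_assoc, mul_assoc, h1, h2, hp, hq]
      ring

/-- an angle whose first multiples have non-negative sines is small -/
lemma theta_le (θ : ℝ) (h0 : 0 < θ) (hpi : θ < Real.pi) (n : ℕ) (hn : 1 ≤ n)
    (h : ∀ j < n, 0 ≤ Real.sin ((j + 1) * θ)) : θ ≤ Real.pi / n := by
  by_contra hcon
  push Not at hcon
  have hn0 : (0 : ℝ) < n := by exact_mod_cast hn
  have hex : ∃ m : ℕ, Real.pi < m * θ := ⟨n, by
    rw [div_lt_iff₀ hn0] at hcon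
    linarith⟩
  classical
  set m := Nat.find hex with hm
  have hm1 : Real.pi < m * θ := Nat.find_spec hex
  have hmn : m ≤ n := Nat.find_min' hex (by
    rw [div_lt_iff₀ hn0] at hcon
    linarith)
  have hm0 : m ≠ 0 := by
    intro h0
    rw [h0] at hm1
    have := Real.pi_pos
    push_cast at hm1
    linarith
  obtain ⟨l, hl⟩ := Nat.exists_eq_succ_of_ne_zero hm0
  have hl1 : (l : ℝ) * θ ≤ Real.pi := by
    have := Nat.find_min hex (m := l) (by omega)
    push Not at this
    exact this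
  rw [hl] at hm1
  push_cast at hm1
  have h1 := h l (by omega)
  have h2 : Real.sin ((l + 1) * θ) = - Real.sin ((l + 1) * θ - Real.pi) := by
    rw [Real.sin_sub_pi]; ring
  have h3 : 0 < Real.sin ((l + 1) * θ - Real.pi) := by
    apply Real.sin_pos_of_pos_of_lt_pi
    · linarith
    · nlinarith
  linarith

/-- **The sector.** If `p² < 4 q` and the first `n` numbers `h_j` are not negative, then
`4 q - p² ≤ (4 p / n)²`. -/
theorem sector (p q : ℤ) (hD : p ^ 2 < 4 * q) (n : ℕ) (hn : 5 ≤ n)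
    (h : ∀ j < n, 0 ≤ seg p q j) :
    0 < p ∧ Real.sqrt (4 * q - p ^ 2) ≤ 4 * p / n := by
  have hq0 : 0 < q := by nlinarith [sq_nonneg p]
  have hDr : (p : ℝ) ^ 2 < 4 * q := by exact_mod_cast hD
  have hq0r : (0 : ℝ) < q := by exact_mod_cast hq0
  set ρ : ℝ := Real.sqrt q with hρ
  have hρ0 : 0 < ρ := Real.sqrt_pos.mpr hq0r
  have hρ2 : ρ ^ 2 = q := Real.sq_sqrt hq0r.le
  set x : ℝ := p / (2 * ρ) with hx
  have hx2 : x ^ 2 < 1 := by
    rw [hx, div_pow, mul_pow, hρ2, div_lt_one (by positivity)]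
    linarith
  have hx1 : -1 < x ∧ x < 1 := by
    rw [← abs_lt]
    rw [← sq_lt_one_iff_abs_lt_one]
    exact hx2
  set θ : ℝ := Real.arccos x with hθ
  have hcos : Real.cos θ = x := Real.cos_arccos hx1.1.le hx1.2.le
  have hθ0 : 0 < θ := Real.arccos_pos.mpr hx1.2
  have hθpi : θ < Real.pi := by
    rw [hθ]
    refine lt_of_le_of_ne (Real.arccos_le_pi x) ?_
    intro h1
    have h2 : Real.cos θ = -1 := by rw [hθ, h1, Real.cos_pi]
    linarith [hx1.1]
  have hsin : 0 < Real.sin θ := Real.sin_pos_of_pos_of_lt_pi hθ0 hθpi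
  have hp : (p : ℝ) = 2 * ρ * Real.cos θ := by
    rw [hcos, hx]
    field_simp
  have hst := seg_trig p q ρ θ hp hρ2.symm
  have hth : θ ≤ Real.pi / n := by
    apply theta_le θ hθ0 hθpi n (by omega)
    intro j hj
    have h1 := hst j
    have h2 : (0 : ℝ) ≤ seg p q j := by exact_mod_cast h j hj
    have h3 : 0 ≤ ρ ^ j * Real.sin ((j + 1) * θ) := by rw [← h1]; positivity
    exact nonneg_of_mul_nonneg_right h3 (by positivity)
  have hn0 : (5 : ℝ) ≤ n := by exact_mod_cast hn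
  have hth2 : θ ≤ Real.pi / 5 := hth.trans (by
    apply div_le_div_of_nonneg_left Real.pi_pos.le (by norm_num) hn0)
  have hpi4 : Real.pi < 3.15 := Real.pi_lt_d2
  have hcos1 : 1 - θ ^ 2 / 2 ≤ Real.cos θ := Real.one_sub_sq_div_two_le_cos
  have hth3 : θ ≤ 0.63 := by linarith
  have hcos2 : 0.8 ≤ Real.cos θ := by nlinarith
  have hsin1 : Real.sin θ ≤ θ := Real.sin_le hθ0.le
  have hp0r : 0 < (p : ℝ) := by rw [hp]; positivity
  have hp0 : 0 < p := by exact_mod_cast hp0r
  refine ⟨hp0, ?_⟩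
  have e : Real.sqrt (4 * q - p ^ 2) = 2 * ρ * Real.sin θ := by
    rw [Real.sqrt_eq_iff_mul_self_eq (by linarith) (by positivity)]
    have := Real.sin_sq_add_cos_sq θ
    rw [hp, ← hρ2]
    nlinarith
  rw [e, hp, le_div_iff₀ (by linarith)]
  have h1 : Real.sin θ * n ≤ 4 * Real.cos θ := by
    have h2 : θ * n ≤ Real.pi := by
      rwa [le_div_iff₀ (by linarith)] at hth
    have h3 : Real.sin θ * n ≤ θ * n := by gcongr
    linarith
  nlinarith
end Pool.Agent.N998.CT
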