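import Mathlib

set_option autoImplicit false

/-! Small negative discriminants violate the divisibility of the Riemann-Roch conditions. -/

namespace Pool.Agent.N998.CT

open Finset

/-- the product in the Riemann-Roch condition, up to the sign -/
def pr (m e h : ℕ) : ℕ := ∏ j ∈ range h, (m + (2 * j + e) ^ 2)

/-- the modulus -/
def md (h : ℕ) : ℕ := 2 ^ (2 * h - 1) * (2 * h).factorial

lemma pr_succ (m e h : ℕ) : pr m e (h + 1) = pr m e h * (m + (2 * h + e) ^ 2) := by
  unfold pr; rw [prod_range_succ]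

lemma md_succ (h : ℕ) (h1 : 1 ≤ h) : md (h + 1) = md h * (4 * (2 * h + 1) * (2 * h + 2)) := by
  obtain ⟨l, rfl⟩ : ∃ l, h = l + 1 := ⟨h - 1, by omega⟩
  unfold md
  have e1 : 2 * (l + 1 + 1) - 1 = 2 * l + 3 := by omega
  have e2 : 2 * (l + 1) - 1 = 2 * l + 1 := by omega
  have e3 : 2 * (l + 1 + 1) = (2 * (l + 1) + 1) + 1 := by ring
  rw [e1, e2, e3, Nat.factorial_succ, Nat.factorial_succ]
  ring

/-- the test -/
def run (m e : ℕ) : ℕ → ℕ → ℕ → ℕ → Bool
  | 0, _, _, _ => false
  | k + 1, h, P, M =>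
    (P * (m + (2 * h + e) ^ 2)) % (M * (4 * (2 * h + 1) * (2 * h + 2))) != 0 ||
      run m e k (h + 1) (P * (m + (2 * h + e) ^ 2)) (M * (4 * (2 * h + 1) * (2 * h + 2)))

lemma run_spec (m e : ℕ) : ∀ k h : ℕ, 1 ≤ h → run m e k h (pr m e h) (md h) = true →
    ∃ l, h < l ∧ l ≤ h + k ∧ ¬ md l ∣ pr m e l
  | 0, h, _, hr => by simp [run] at hr
  | k + 1, h, h1, hr => by
      rw [run, ← pr_succ, ← md_succ h h1, Bool.or_eq_true] at hr
      rcases hr with hr | hr
      · refine ⟨h + 1, by omega, by omega, ?_⟩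
        intro hd
        rw [Nat.mod_eq_zero_of_dvd hd] at hr
        simp at hr
      · obtain ⟨l, g1, g2, g3⟩ := run_spec m e k (h + 1) (by omega) hr
        exact ⟨l, by omega, by omega, g3⟩

/-- loop -/
def allb (f : ℕ → Bool) : ℕ → ℕ → Bool
  | 0, _ => true
  | k + 1, i => f i && allb f k (i + 1)

lemma allb_spec (f : ℕ → Bool) : ∀ k i : ℕ, allb f k i = true → ∀ j, i ≤ j → j < i + k → f j = true
  | 0, i, _, j, h1, h2 => by omega
  | k + 1, i, h, j, h1, h2 => by
      rw [allb, Bool.and_eq_true] at h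
      rcases Nat.eq_or_lt_of_le h1 with h3 | h3
      · rw [← h3]; exact h.1
      · exact allb_spec f k (i + 1) h.2 j h3 (by omega)

/-- both residues -/
def both (k i : ℕ) : Bool :=
  run (4 * i + 3) 1 k 1 (4 * i + 4) 4 && run (4 * i + 4) 0 k 1 (4 * i + 4) 4

lemma both_spec (k i : ℕ) (h : both k i = true) :
    (∃ l, 1 < l ∧ l ≤ 1 + k ∧ ¬ md l ∣ pr (4 * i + 3) 1 l) ∧
    (∃ l, 1 < l ∧ l ≤ 1 + k ∧ ¬ md l ∣ pr (4 * i + 4) 0 l) := by
  unfold both at h
  rw [Bool.and_eq_true] at h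
  have e1 : pr (4 * i + 3) 1 1 = 4 * i + 4 := by simp [pr]
  have e2 : pr (4 * i + 4) 0 1 = 4 * i + 4 := by simp [pr]
  have e3 : md 1 = 4 := by decide
  refine ⟨run_spec _ _ k 1 le_rfl ?_, run_spec _ _ k 1 le_rfl ?_⟩
  · rw [e1, e3]; exact h.1
  · rw [e2, e3]; exact h.2

lemma blockA : allb (both 5) 119 0 = true := by decide +kernel

lemma blockA' : run 476 0 5 1 476 4 = true := by decide +kernel

lemma blockB : allb (both 6) 389 0 = true := by decide +kernel

lemma blockC0 : allb (both 16) 1000 0 = true := by decide +kernel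
lemma blockC1 : allb (both 16) 1000 1000 = true := by decide +kernel
lemma blockC2 : allb (both 16) 1000 2000 = true := by decide +kernel
lemma blockC3 : allb (both 16) 1000 3000 = true := by decide +kernel
lemma blockC4 : allb (both 16) 1000 4000 = true := by decide +kernel
lemma blockC5 : allb (both 16) 1000 5000 = true := by decide +kernel

end Pool.Agent.N998.CT
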